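import Pool.Agent.N207.AX.Exp
import Pool.Agent.N667.AX.MOD
import Pool.Agent.N301.AX.INDV

/-!
# The universal family for the modular function
-/

set_option autoImplicit false
set_option linter.unusedSectionVars false

open Filter Topology
open MvPolynomial (C X)

namespace Pool.Agent.V8H73.RN

open Pool.Agent.N207.AX (Ind ym)
open Pool.Agent.Y776.AxJ (b4 Nj)
open Pool.Agent.Y776 (jf)

/-- the coordinates: the invariants, the numbers -/
abbrev Cm (p s : ℕ) : Type := Fin p ⊕ Fin s

/-- branches of the inverse of the modular function and of the logarithm -/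
structure BrM {p s : ℕ} (U : Set (Cm p s → ℂ)) (τ : Fin p → (Cm p s → ℂ) → ℂ) (w : Fin s → (Cm p s → ℂ) → ℂ) :
    Prop where
  isOpen : IsOpen U
  isPreconnected : IsPreconnected U
  nonempty : U.Nonempty
  analytic : ∀ i, AnalyticOnNhd ℂ (τ i) U
  im_pos : ∀ i, ∀ z ∈ U, 0 < (τ i z).im
  j : ∀ i, ∀ z ∈ U, jf (τ i z) = z (Sum.inl i)
  analytic_w : ∀ k, AnalyticOnNhd ℂ (w k) U
  exp : ∀ k, ∀ z ∈ U, Complex.exp (w k z) = z (Sum.inr k)

/-- a nonzero polynomial does not vanish on an open set -/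
theorem exists_ne {Y : Type} [Fintype Y] {U : Set (Y → ℂ)} (hU : IsOpen U) (hne : U.Nonempty)
    {P : MvPolynomial Y ℂ} (hP : P ≠ 0) : ∃ z ∈ U, MvPolynomial.eval z P ≠ 0 := by
  by_contra hcon
  push Not at hcon
  obtain ⟨z₀, hz₀⟩ := hne
  obtain ⟨δ, hδ, hb⟩ := Metric.isOpen_iff.1 hU z₀ hz₀
  refine hP (MvPolynomial.funext_set (fun i => Metric.ball (z₀ i) δ)
    (fun i => infinite_of_mem_nhds (z₀ i) (Metric.ball_mem_nhds _ hδ)) fun z hz => ?_)
  rw [map_zero]
  refine hcon z (hb ?_)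
  rw [Metric.mem_ball, dist_pi_lt_iff hδ]
  intro i
  exact hz i (Set.mem_univ i)

/-- the exchange lemma, with repetitions -/
theorem exch2 {Y N : Type} {U : Set (Y → ℂ)} {f : N → (Y → ℂ) → ℂ} {r : ℕ} {e b : Fin r → N}
    (_he : Function.Injective e) (hI : Ind U (fun k => f (e k)))
    (hb : ∀ i, (∃ j, ∀ z ∈ U, f (b j) z = f i z) ∨ ∃ Q : Polynomial (MvPolynomial Y ℂ), Q ≠ 0 ∧
      ∀ z ∈ U, Q.eval₂ (MvPolynomial.eval z) (f i z) = 0) : Ind U (fun k => f (b k)) := by
  have h1 : ∀ j, ∃ i, ∀ z ∈ U, f (b i) z = f (e j) z := by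
    intro j
    rcases hb (e j) with h | ⟨Q, hQ, h⟩
    · exact h
    · exact absurd h (hI.not_algebraic j hQ)
  choose π hπ using h1
  have h2 : Function.Injective π := by
    intro i j hij
    by_contra hne
    have h3 : (X i - X j : MvPolynomial (Fin r) (MvPolynomial Y ℂ)) = 0 := hI _ fun z hz => by
      rw [MvPolynomial.eval₂_sub, MvPolynomial.eval₂_X, MvPolynomial.eval₂_X]
      change f (e i) z - f (e j) z = 0
      rw [← hπ i z hz, ← hπ j z hz, hij, sub_self]
    rw [sub_eq_zero] at h3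
    exact hne (MvPolynomial.X_injective h3)
  have h3 : Function.Bijective π := Finite.injective_iff_bijective.1 h2
  obtain ⟨ρ, hρ1, hρ2⟩ := Function.bijective_iff_has_inverse.1 h3
  have h5 := hI.comp (g := ρ) hρ2.injective
  intro P hP
  refine h5 P fun z hz => ?_
  have h6 : (fun k => f (e (ρ k)) z) = fun k => f (b k) z := by
    funext k
    rw [← hπ (ρ k) z hz, hρ2]
  rw [h6]
  exact hP z hz

/-- `exp(a + t)` and `exp(b + i t)` are algebraically independent -/
theorem exp_line {a b : ℂ} {P : MvPolynomial (Fin 2) ℂ}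
    (h : ∀ᶠ t : ℂ in 𝓝 0, MvPolynomial.eval ![Complex.exp (a + t), Complex.exp (b + t * Complex.I)] P = 0) : P = 0 := by
  have han : AnalyticOnNhd ℂ (fun t : ℂ => MvPolynomial.eval ![Complex.exp (a + t), Complex.exp (b + t * Complex.I)] P)
      Set.univ := by
    intro t _
    have h1 : AnalyticAt ℂ (fun t : ℂ => ![Complex.exp (a + t), Complex.exp (b + t * Complex.I)]) t := by
      rw [analyticAt_pi_iff]
      intro i
      fin_cases i
      · exact (analyticAt_const.add analyticAt_id).cexp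
      · exact (analyticAt_const.add (analyticAt_id.mul analyticAt_const)).cexp
    exact AnalyticAt.comp (g := fun x : Fin 2 → ℂ => MvPolynomial.eval x P) (AnalyticOnNhd.eval_mvPolynomial P _ trivial) h1
  have hz := han.eqOn_zero_of_preconnected_of_eventuallyEq_zero isPreconnected_univ (Set.mem_univ 0) h
  have key : ∀ u : ℂ, u ≠ 0 → ∀ v : ℂ, MvPolynomial.eval ![u, v] P = 0 := by
    intro u hu v
    let q : Polynomial ℂ := MvPolynomial.aeval ![Polynomial.C u, Polynomial.X] P
    have hq : ∀ v : ℂ, q.eval v = MvPolynomial.eval ![u, v] P := by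
      intro v
      have h1 : (Polynomial.evalRingHom v).comp (MvPolynomial.aeval ![Polynomial.C u, Polynomial.X] :
          MvPolynomial (Fin 2) ℂ →ₐ[ℂ] Polynomial ℂ).toRingHom = MvPolynomial.eval ![u, v] := by
        refine MvPolynomial.ringHom_ext (fun r => ?_) fun i => ?_
        · simp
        · fin_cases i <;> simp
      exact RingHom.congr_fun h1 P
    have hroot : ∀ n : ℕ, q.eval (Complex.exp (b + (Complex.log u - a + n * (2 * Real.pi * Complex.I)) * Complex.I)) = 0 := by
      intro n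
      rw [hq]
      have h2 := hz (Set.mem_univ (Complex.log u - a + n * (2 * Real.pi * Complex.I)))
      have h3 : Complex.exp (a + (Complex.log u - a + n * (2 * Real.pi * Complex.I))) = u := by
        have e1 : a + (Complex.log u - a + n * (2 * Real.pi * Complex.I)) =
            Complex.log u + n * (2 * Real.pi * Complex.I) := by ring
        rw [e1, Complex.exp_add, Complex.exp_log hu, Complex.exp_nat_mul_two_pi_mul_I, mul_one]
      simp only [Pi.zero_apply] at h2
      rw [h3] at h2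
      exact h2
    have hq0 : q = 0 := by
      refine Polynomial.eq_zero_of_infinite_isRoot q ?_
      refine Set.Infinite.mono (s := Set.range fun n : ℕ =>
        Complex.exp (b + (Complex.log u - a + n * (2 * Real.pi * Complex.I)) * Complex.I)) ?_ ?_
      · rintro _ ⟨n, rfl⟩
        exact hroot n
      · refine Set.infinite_range_of_injective fun m n hmn => ?_
        have h4 := congrArg norm hmn
        simp only [Complex.norm_exp] at h4
        have h5 := Real.exp_injective h4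
        simp only [Complex.add_re, Complex.mul_re, Complex.sub_re, Complex.add_im, Complex.mul_im, Complex.sub_im,
          Complex.I_re, Complex.I_im, Complex.natCast_re, Complex.natCast_im, Complex.ofReal_re, Complex.ofReal_im,
          mul_zero, mul_one, zero_mul, sub_zero, add_zero, zero_sub, Complex.re_ofNat, Complex.im_ofNat] at h5
        have h6 : (m : ℝ) * (2 * Real.pi) = n * (2 * Real.pi) := by linarith
        have h7 : (2 * Real.pi) ≠ 0 := by positivity
        exact_mod_cast mul_right_cancel₀ h7 h6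
    rw [← hq, hq0, Polynomial.eval_zero]
  refine MvPolynomial.funext_set (fun i : Fin 2 => if i = 0 then {u : ℂ | u ≠ 0} else Set.univ) (fun i => ?_)
    fun z hz => ?_
  · by_cases hi : i = 0
    · rw [if_pos hi]
      exact (Set.finite_singleton (0 : ℂ)).infinite_compl
    · rw [if_neg hi]
      exact Set.infinite_univ
  · rw [map_zero]
    have h1 := hz 0 (Set.mem_univ _)
    simp only [if_true] at h1
    have h2 : z = ![z 0, z 1] := by
      funext i
      fin_cases i <;> rfl
    rw [h2]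
    exact key _ h1 _

section main

variable {p s : ℕ} {U : Set (Cm p s → ℂ)} {τ : Fin p → (Cm p s → ℂ) → ℂ} {w : Fin s → (Cm p s → ℂ) → ℂ}

/-- the exponential of the coordinates -/
noncomputable def ex (y : Cm p s → ℂ) : Cm p s → ℂ := fun j => Complex.exp (y j)

theorem ex_an (y : Cm p s → ℂ) : AnalyticAt ℂ (ex (p := p) (s := s)) y := by
  rw [analyticAt_pi_iff]
  intro j
  exact ((ContinuousLinearMap.proj (R := ℂ) (φ := fun _ : Cm p s => ℂ) j).analyticAt y).cexp

/-- the functions `τ_i`, `j'(τ_i)`, `j''(τ_i)`, `w_k` -/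
noncomputable def vm (τ : Fin p → (Cm p s → ℂ) → ℂ) (w : Fin s → (Cm p s → ℂ) → ℂ) :
    (Fin p × Fin 3) ⊕ Fin s → (Cm p s → ℂ) → ℂ :=
  Sum.elim (fun q z => b4 (![0, 2, 3] q.2) (τ q.1 z)) w

theorem BrM.vm_an (h : BrM U τ w) (i : (Fin p × Fin 3) ⊕ Fin s) : AnalyticOnNhd ℂ (vm τ w i) U := by
  intro z hz
  rcases i with ⟨i, m⟩ | k
  · exact AnalyticAt.comp (g := b4 (![0, 2, 3] m)) (f := τ i) (Pool.Agent.Y776.AxJ.b4_an _ _ (h.im_pos i z hz))
      (h.analytic i z hz)
  · exact h.analytic_w k z hz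

/-- the independence in the logarithmic coordinates -/
theorem BrM.ball (h : BrM U τ w) (hp : 0 < p) : ∃ (y₀ : Cm p s → ℂ) (δ : ℝ), 0 < δ ∧ (∀ y ∈ Metric.ball y₀ δ, ex y ∈ U) ∧
    Ind (Metric.ball y₀ δ) (fun (i : (Fin p × Fin 4) ⊕ Fin s) (y : Cm p s → ℂ) =>
      Sum.elim (fun q => b4 q.2 (τ q.1 (ex y))) (fun k => Complex.exp (y (Sum.inr k))) i) := by
  classical
  obtain ⟨x₀, hx₀, hx0⟩ := exists_ne h.isOpen h.nonempty (P := ∏ j : Cm p s, X j)
    (Finset.prod_ne_zero_iff.2 fun j _ => MvPolynomial.X_ne_zero j)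
  rw [map_prod, Finset.prod_ne_zero_iff] at hx0
  set y₀ : Cm p s → ℂ := fun j => Complex.log (x₀ j) with hy₀
  have hex₀ : ex y₀ = x₀ := by
    funext j
    have h1 := hx0 j (Finset.mem_univ j)
    rw [MvPolynomial.eval_X] at h1
    exact Complex.exp_log h1
  have hc : ContinuousAt (ex (p := p) (s := s)) y₀ := (ex_an y₀).continuousAt
  obtain ⟨δ, hδ, hb⟩ := Metric.eventually_nhds_iff_ball.1 (hc.eventually_mem (h.isOpen.mem_nhds (by rw [hex₀]; exact hx₀)))
  refine ⟨y₀, δ, hδ, hb, ?_⟩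
  set V : Set (Cm p s → ℂ) := Metric.ball y₀ δ with hV
  have hVo : IsOpen V := Metric.isOpen_ball
  have hVc : IsPreconnected V := (convex_ball y₀ δ).isPreconnected
  have hVn : V.Nonempty := ⟨y₀, Metric.mem_ball_self hδ⟩
  have hy₀V : y₀ ∈ V := Metric.mem_ball_self hδ
  have hadd : ∀ j : Cm p s, y₀ + (((δ / 2 : ℝ) : ℂ) • Pi.single j (1 : ℂ) : Cm p s → ℂ) ∈ V := by
    intro j
    rw [hV, Metric.mem_ball, dist_eq_norm, add_sub_cancel_left, norm_smul, Pi.norm_single, norm_one, mul_one,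
      Complex.norm_real, Real.norm_eq_abs, abs_of_pos (by positivity)]
    linarith
  let e0 : Fin (p + s) ≃ Cm p s := finSumFinEquiv.symm
  let τ' : Fin p → (Cm p s → ℂ) → ℂ := fun i y => τ i (ex y)
  let w' : Fin (p + s) → (Cm p s → ℂ) → ℂ := fun a y => y (e0 a)
  have hta : ∀ i, AnalyticOnNhd ℂ (τ' i) V := fun i y hy =>
    AnalyticAt.comp (g := τ i) (f := ex) (h.analytic i _ (hb y hy)) (ex_an y)
  have hwa : ∀ a, AnalyticOnNhd ℂ (w' a) V := fun a y _ =>
    (ContinuousLinearMap.proj (R := ℂ) (φ := fun _ : Cm p s => ℂ) (e0 a)).analyticAt y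
  obtain ⟨e, he, hI⟩ := Pool.Agent.N667.AX.modl Pool.Agent.N301.AX.indv (Cm p s) p (p + s) V τ' w' hp hVo hVc hVn hta
    (fun i y hy => h.im_pos i _ (hb y hy)) (by
      intro i c
      by_contra hcon
      push Not at hcon
      have h1 := h.j i _ (hb _ hy₀V)
      have h2 := h.j i _ (hb _ (hadd (Sum.inl i)))
      have h3 : τ i (ex y₀) = c := hcon _ hy₀V
      have h4 : τ i (ex (y₀ + (((δ / 2 : ℝ) : ℂ) • Pi.single (Sum.inl i) (1 : ℂ) : Cm p s → ℂ))) = c := hcon _ (hadd _)
      rw [h3] at h1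
      rw [h4, h1] at h2
      simp only [ex, Pi.add_apply, Pi.smul_apply, Pi.single_eq_same, smul_eq_mul, mul_one, Complex.exp_add] at h2
      have h5 : Complex.exp (((δ / 2 : ℝ) : ℂ)) = 1 := by
        have h6 := Complex.exp_ne_zero (y₀ (Sum.inl i))
        apply mul_left_cancel₀ h6
        rw [mul_one]
        exact h2.symm
      have h7 := congrArg norm h5
      rw [Complex.norm_exp, Complex.ofReal_re, norm_one, Real.exp_eq_one_iff] at h7
      linarith) (by
      intro i k hik
      refine ⟨y₀, hy₀V, Pi.single (Sum.inl i) 1 + Complex.I • Pi.single (Sum.inl k) 1, fun P hP => ?_⟩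
      refine exp_line (a := y₀ (Sum.inl i)) (b := y₀ (Sum.inl k)) ?_
      have hcont : ContinuousAt (fun t : ℂ => y₀ + t • (Pi.single (Sum.inl i) (1 : ℂ) +
        Complex.I • Pi.single (Sum.inl k) (1 : ℂ) : Cm p s → ℂ)) 0 := by fun_prop
      have hVt : ∀ᶠ t : ℂ in 𝓝 0, y₀ + t • (Pi.single (Sum.inl i) (1 : ℂ) +
        Complex.I • Pi.single (Sum.inl k) (1 : ℂ) : Cm p s → ℂ) ∈ V := hcont.eventually_mem (by
          simpa using hVo.mem_nhds hy₀V)
      filter_upwards [hP, hVt] with t ht htV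
      have h1 := h.j i _ (hb _ htV)
      have h2 := h.j k _ (hb _ htV)
      have h3 : jf (τ' i (y₀ + t • (Pi.single (Sum.inl i) (1 : ℂ) +
        Complex.I • Pi.single (Sum.inl k) (1 : ℂ) : Cm p s → ℂ))) = Complex.exp (y₀ (Sum.inl i) + t) := by
        refine h1.trans ?_
        have hne : (Sum.inl i : Cm p s) ≠ Sum.inl k := fun h => hik (Sum.inl_injective h)
        simp [ex, hik]
      have h4 : jf (τ' k (y₀ + t • (Pi.single (Sum.inl i) (1 : ℂ) +
        Complex.I • Pi.single (Sum.inl k) (1 : ℂ) : Cm p s → ℂ))) = Complex.exp (y₀ (Sum.inl k) + t * Complex.I) := by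
        refine h2.trans ?_
        simp [ex, hik.symm]
      rw [h3, h4] at ht
      exact ht) hwa (by
      intro m b hm
      funext a
      have h1 := hm _ hy₀V
      have h2 := hm _ (hadd (e0 a))
      rw [← h1] at h2
      have h3 : ∑ k, (m k : ℂ) * w' k (y₀ + (((δ / 2 : ℝ) : ℂ) • Pi.single (e0 a) (1 : ℂ) : Cm p s → ℂ)) =
          ∑ k, (m k : ℂ) * w' k y₀ + (m a : ℂ) * ((δ / 2 : ℝ) : ℂ) := by
        have h4 : ∀ k, (m k : ℂ) * w' k (y₀ + (((δ / 2 : ℝ) : ℂ) • Pi.single (e0 a) (1 : ℂ) : Cm p s → ℂ)) =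
            (m k : ℂ) * w' k y₀ + if k = a then (m k : ℂ) * ((δ / 2 : ℝ) : ℂ) else 0 := by
          intro k
          by_cases hk : k = a
          · subst hk
            simp [w', mul_add]
          · have hk' : e0 k ≠ e0 a := fun h => hk (e0.injective h)
            simp [w', hk, hk']
        rw [Finset.sum_congr rfl fun k _ => h4 k, Finset.sum_add_distrib, Finset.sum_ite_eq']
        simp
      rw [h3] at h2
      have h5 : (m a : ℂ) * ((δ / 2 : ℝ) : ℂ) = 0 := by linear_combination h2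
      have h6 : (((δ / 2 : ℝ) : ℂ)) ≠ 0 := by
        rw [Ne, Complex.ofReal_eq_zero]
        positivity
      exact_mod_cast (mul_eq_zero.1 h5).resolve_right h6)
  have hcard : Fintype.card (Fin (3 * p + (p + s))) = Fintype.card ((Fin p × Fin 4) ⊕ Fin s) := by
    simp only [Fintype.card_fin, Fintype.card_sum, Fintype.card_prod]
    ring
  let g : Fin (3 * p + (p + s)) ≃ (Fin p × Fin 4) ⊕ Fin s := Fintype.equivOfCardEq hcard
  let B : (Fin p × Fin 4) ⊕ Fin s → Nj p (p + s) := Sum.elim Sum.inl fun k => Sum.inr (Sum.inr (e0.symm (Sum.inr k)))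
  have h1 := exch2 (f := ym τ' w') (b := fun k => B (g k)) he hI (by
    rintro (q | a | a)
    · exact Or.inl ⟨g.symm (Sum.inl q), fun z _ => by rw [g.apply_symm_apply]; rfl⟩
    · refine Or.inr ⟨Polynomial.X - Polynomial.C (X (e0 a)), Polynomial.X_sub_C_ne_zero _, fun z _ => ?_⟩
      rw [Polynomial.eval₂_sub, Polynomial.eval₂_X, Polynomial.eval₂_C, MvPolynomial.eval_X]
      exact sub_self _
    · rcases hc : e0 a with i | k
      · refine Or.inl ⟨g.symm (Sum.inl (i, 1)), fun z hz => ?_⟩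
        rw [g.apply_symm_apply]
        change jf (τ i (ex z)) = Complex.exp (z (e0 a))
        rw [h.j i _ (hb z hz), hc]
        rfl
      · refine Or.inl ⟨g.symm (Sum.inr k), fun z hz => ?_⟩
        rw [g.apply_symm_apply]
        change Complex.exp (z (e0 (e0.symm (Sum.inr k)))) = Complex.exp (z (e0 a))
        rw [e0.apply_symm_apply, hc])
  have h2 := h1.comp g.symm.injective
  intro P hP
  refine h2 P fun z hz => ?_
  have h3 : (fun i => ym τ' w' (B (g (g.symm i))) z) = fun i : (Fin p × Fin 4) ⊕ Fin s =>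
      Sum.elim (fun q => b4 q.2 (τ q.1 (ex z))) (fun k => Complex.exp (z (Sum.inr k))) i := by
    funext i
    rw [g.apply_symm_apply]
    rcases i with q | k
    · rfl
    · change Complex.exp (z (e0 (e0.symm (Sum.inr k)))) = Complex.exp (z (Sum.inr k))
      rw [e0.apply_symm_apply]
  rw [h3]
  exact hP z hz

/-- the values of the logarithms are the coordinates up to constants -/
theorem BrM.log_const (h : BrM U τ w) {y₀ : Cm p s → ℂ} {δ : ℝ} (hδ : 0 < δ) (hb : ∀ y ∈ Metric.ball y₀ δ, ex y ∈ U)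
    (k : Fin s) : ∀ y ∈ Metric.ball y₀ δ, w k (ex y) = y (Sum.inr k) + (w k (ex y₀) - y₀ (Sum.inr k)) := by
  have han : ∀ y ∈ Metric.ball y₀ δ, AnalyticAt ℂ (fun y : Cm p s → ℂ => w k (ex y) - y (Sum.inr k)) y := fun y hy =>
    (AnalyticAt.comp (g := w k) (f := ex) (h.analytic_w k _ (hb y hy)) (ex_an y)).sub
      ((ContinuousLinearMap.proj (R := ℂ) (φ := fun _ : Cm p s => ℂ) (Sum.inr k)).analyticAt y)
  have hone : ∀ y ∈ Metric.ball y₀ δ, Complex.exp (w k (ex y) - y (Sum.inr k)) = 1 := by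
    intro y hy
    rw [Complex.exp_sub, h.exp k _ (hb y hy)]
    exact div_self (Complex.exp_ne_zero _)
  have hfd : (Metric.ball y₀ δ).EqOn (fderiv ℂ (fun y : Cm p s → ℂ => w k (ex y) - y (Sum.inr k))) 0 := by
    intro y hy
    have h1 : (fun y : Cm p s → ℂ => Complex.exp (w k (ex y) - y (Sum.inr k))) =ᶠ[𝓝 y] fun _ => 1 := by
      filter_upwards [Metric.isOpen_ball.mem_nhds hy] with z hz
      exact hone z hz
    have h2 := (han y hy).differentiableAt.hasFDerivAt.cexp
    have h3 := h1.fderiv_eq (𝕜 := ℂ)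
    rw [h2.fderiv, hone y hy, one_smul, fderiv_const_apply] at h3
    exact h3
  intro y hy
  have h4 : w k (ex y) - y (Sum.inr k) = w k (ex y₀) - y₀ (Sum.inr k) :=
    Metric.isOpen_ball.is_const_of_fderiv_eq_zero (𝕜 := ℂ)
      (f := fun y : Cm p s → ℂ => w k (ex y) - y (Sum.inr k)) (convex_ball y₀ δ).isPreconnected
      (fun y hy => (han y hy).differentiableAt.differentiableWithinAt) hfd hy (Metric.mem_ball_self hδ)
  linear_combination h4

/-- **The universal family**: the functions `τ_i`, `j'(τ_i)`, `j''(τ_i)`, `w_k` are algebraically independent over the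
rational functions of the `j(τ_i)` and the `exp(w_k)`. -/
theorem BrM.ind (h : BrM U τ w) (hp : 0 < p) : Ind U (vm τ w) := by
  obtain ⟨y₀, δ, hδ, hb, hI⟩ := h.ball hp
  have hlog := fun k => h.log_const hδ hb k
  set c : Fin s → ℂ := fun k => w k (ex y₀) - y₀ (Sum.inr k) with hc
  intro P hP
  -- the substitution
  let φ0 : MvPolynomial (Cm p s) ℂ →+* MvPolynomial ((Fin p × Fin 4) ⊕ Fin s) (MvPolynomial (Cm p s) ℂ) :=
    MvPolynomial.eval₂Hom (C.comp C) fun x => x.elim (fun i => X (Sum.inl (i, 1))) fun k => X (Sum.inr k)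
  let Φ : MvPolynomial ((Fin p × Fin 3) ⊕ Fin s) (MvPolynomial (Cm p s) ℂ) →+*
      MvPolynomial ((Fin p × Fin 4) ⊕ Fin s) (MvPolynomial (Cm p s) ℂ) :=
    MvPolynomial.eval₂Hom φ0 (Sum.elim (fun q => X (Sum.inl (q.1, ![0, 2, 3] q.2)))
      fun k => C (X (Sum.inr k) + C (c k)))
  let ψ0 : MvPolynomial (Cm p s) ℂ →+* MvPolynomial ((Fin p × Fin 3) ⊕ Fin s) (MvPolynomial (Cm p s) ℂ) :=
    MvPolynomial.eval₂Hom (C.comp C) fun x => x.elim (fun i => 0) fun k => X (Sum.inr k) - C (C (c k))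
  let Ψ : MvPolynomial ((Fin p × Fin 4) ⊕ Fin s) (MvPolynomial (Cm p s) ℂ) →+*
      MvPolynomial ((Fin p × Fin 3) ⊕ Fin s) (MvPolynomial (Cm p s) ℂ) :=
    MvPolynomial.eval₂Hom ψ0 (Sum.elim (fun q => ![X (Sum.inl (q.1, 0)), C (X (Sum.inl q.1)), X (Sum.inl (q.1, 1)),
      X (Sum.inl (q.1, 2))] q.2) fun k => C (X (Sum.inr k)))
  have hleft : Ψ.comp Φ = RingHom.id _ := by
    refine MvPolynomial.ringHom_ext' (MvPolynomial.ringHom_ext (fun r => ?_) fun x => ?_) fun i => ?_
    · simp [Φ, Ψ, φ0, ψ0]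
    · rcases x with i | k
      · simp [Φ, Ψ, φ0, ψ0]
      · simp [Φ, Ψ, φ0, ψ0]
    · rcases i with ⟨i, m⟩ | k
      · fin_cases m <;> simp [Φ, Ψ, φ0, ψ0]
      · simp [Φ, Ψ, φ0, ψ0]
  have hev : ∀ y ∈ Metric.ball y₀ δ, (Φ P).eval₂ (MvPolynomial.eval y) (fun i : (Fin p × Fin 4) ⊕ Fin s =>
      Sum.elim (fun q => b4 q.2 (τ q.1 (ex y))) (fun k => Complex.exp (y (Sum.inr k))) i) =
      P.eval₂ (MvPolynomial.eval (ex y)) (fun i => vm τ w i (ex y)) := by
    intro y hy
    have h1 : (MvPolynomial.eval₂Hom (MvPolynomial.eval y) (fun i : (Fin p × Fin 4) ⊕ Fin s =>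
        Sum.elim (fun q => b4 q.2 (τ q.1 (ex y))) (fun k => Complex.exp (y (Sum.inr k))) i)).comp Φ =
        MvPolynomial.eval₂Hom (MvPolynomial.eval (ex y)) (fun i => vm τ w i (ex y)) := by
      refine MvPolynomial.ringHom_ext' (MvPolynomial.ringHom_ext (fun r => ?_) fun x => ?_) fun i => ?_
      · simp [Φ, φ0]
      · rcases x with i | k
        · have h2 := h.j i _ (hb y hy)
          simp only [Φ, φ0, RingHom.comp_apply, MvPolynomial.coe_eval₂Hom, MvPolynomial.eval₂_C, MvPolynomial.eval₂_X,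
            Sum.elim_inl, MvPolynomial.eval_X]
          exact h2
        · simp [Φ, φ0, ex]
      · rcases i with ⟨i, m⟩ | k
        · simp [Φ, φ0, vm]
        · have h2 := hlog k y hy
          simp only [Φ, φ0, RingHom.comp_apply, MvPolynomial.coe_eval₂Hom, MvPolynomial.eval₂_C, MvPolynomial.eval₂_X,
            Sum.elim_inr, MvPolynomial.eval_X, map_add, MvPolynomial.eval_C, vm]
          exact h2.symm
    exact RingHom.congr_fun h1 P
  have h0 : Φ P = 0 := hI _ fun y hy => by
    rw [hev y hy]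
    exact hP _ (hb y hy)
  have h1 := RingHom.congr_fun hleft P
  rw [RingHom.comp_apply, h0, map_zero] at h1
  exact h1.symm

end main

end Pool.Agent.V8H73.RN
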