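import Pool.Agent.V8H73.RN.Uni
import Pool.Agent.V8H73.RN.UniM
import Pool.Agent.N207.AX.Exp
import Pool.Agent.N945.AX.ELL
import Pool.Agent.N301.AX.IND
import Pool.Agent.N878.AX.LINE

/-!
# Fixed elliptic curves: the universal family of points and numbers
-/

set_option autoImplicit false
set_option linter.unusedSectionVars false

open Filter Topology
open scoped PeriodPair

namespace Pool.Agent.V8H73.RN

open Pool.Agent.N207.AX (Ind)

/-- the coordinates: the first coordinates of the points, the numbers -/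
abbrev Cf (n s : ℕ) : Type := Fin n ⊕ Fin s

/-- branches of the elliptic logarithms and the logarithms -/
structure BrF {q n s : ℕ} (U : Set (Cf n s → ℂ)) (Λ : Fin q → PeriodPair) (ty : Fin n → Fin q)
    (u : Fin n → (Cf n s → ℂ) → ℂ) (l : Fin s → (Cf n s → ℂ) → ℂ) : Prop where
  isOpen : IsOpen U
  isPreconnected : IsPreconnected U
  nonempty : U.Nonempty
  nohom : ∀ c c', c ≠ c' → Pool.Agent.TH813.G.NoHom (Λ c) (Λ c')
  analytic_u : ∀ i, AnalyticOnNhd ℂ (u i) U
  u_notMem : ∀ i, ∀ z ∈ U, u i z ∉ (Λ (ty i)).lattice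
  wp : ∀ i, ∀ z ∈ U, ℘[Λ (ty i)] (u i z) = z (Sum.inl i)
  analytic_l : ∀ k, AnalyticOnNhd ℂ (l k) U
  exp : ∀ k, ∀ z ∈ U, Complex.exp (l k z) = z (Sum.inr k)

variable {q n s : ℕ} {U : Set (Cf n s → ℂ)} {Λ : Fin q → PeriodPair} {ty : Fin n → Fin q}
  {u : Fin n → (Cf n s → ℂ) → ℂ} {l : Fin s → (Cf n s → ℂ) → ℂ}

/-- a point at which the derivatives of the elliptic functions are not zero -/
theorem BrF.point (h : BrF U Λ ty u l) : ∃ z ∈ U, ∀ j, ℘'[Λ (ty j)] (u j z) ≠ 0 := by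
  obtain ⟨z, hz, hz0⟩ := exists_ne h.isOpen h.nonempty (P := ∏ j : Fin n,
    (MvPolynomial.C 4 * MvPolynomial.X (Sum.inl j) ^ 3 -
      (MvPolynomial.C (Λ (ty j)).g₂ * MvPolynomial.X (Sum.inl j) + MvPolynomial.C (Λ (ty j)).g₃) :
        MvPolynomial (Cf n s) ℂ)) (by
    refine Finset.prod_ne_zero_iff.2 fun j _ h0 => ?_
    have h1 := congrArg (MvPolynomial.aeval (fun _ : Cf n s => (Polynomial.X : Polynomial ℂ))) h0
    simp only [map_sub, map_add, map_mul, map_pow, MvPolynomial.aeval_X, MvPolynomial.algHom_C, map_zero] at h1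
    have h2 := congrArg (fun p => Polynomial.coeff p 3) h1
    simp at h2)
  refine ⟨z, hz, fun j h0 => ?_⟩
  rw [map_prod, Finset.prod_ne_zero_iff] at hz0
  apply hz0 j (Finset.mem_univ j)
  have h1 := (Λ (ty j)).derivWeierstrassP_sq (u j z) (h.u_notMem j z hz)
  rw [h0, h.wp j z hz] at h1
  simp only [map_sub, map_add, map_mul, map_pow, MvPolynomial.eval_X, MvPolynomial.eval_C]
  linear_combination -h1

theorem BrF.indT (h : BrF U Λ ty u l) (m : Fin s → ℤ) (b : ℂ) (hm : ∀ z ∈ U, ∑ k, (m k : ℂ) * l k z = b) : m = 0 := by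
  funext k
  obtain ⟨z, hz⟩ := h.nonempty
  have hmem := ln_mem h.isOpen hz (Sum.inr k)
  have hd : ∀ a, deriv (fun τ => l a (ln z (Sum.inr k) τ)) 0 * z (Sum.inr a) = if a = k then 1 else 0 := by
    intro a
    have ha := an_comp (h.analytic_l a) hz (Sum.inr k)
    have h1 : (fun τ => Complex.exp (l a (ln z (Sum.inr k) τ))) =ᶠ[𝓝 0]
        fun τ => z (Sum.inr a) + (if a = k then 1 else 0) * τ := by
      filter_upwards [hmem] with τ hτ
      rw [h.exp a _ hτ]
      by_cases hl : a = k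
      · rw [hl, ln_same, if_pos rfl, one_mul]
      · rw [ln_ne _ (by simpa using hl), if_neg hl, zero_mul, add_zero]
    have h2 := ha.differentiableAt.hasDerivAt.cexp
    have h3 := h1.deriv_eq
    rw [h2.deriv] at h3
    have h4 : deriv (fun τ : ℂ => z (Sum.inr a) + (if a = k then 1 else 0) * τ) 0 = if a = k then 1 else 0 := by
      rw [deriv_const_add, deriv_const_mul _ (by fun_prop), deriv_id'', mul_one]
    rw [h4, ln_zero, h.exp a z hz, mul_comm] at h3
    exact h3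
  have hs : ∑ a, (m a : ℂ) * deriv (fun τ => l a (ln z (Sum.inr k) τ)) 0 = 0 := by
    have h1 : (fun τ => ∑ a, (m a : ℂ) * l a (ln z (Sum.inr k) τ)) =ᶠ[𝓝 0] fun _ => b := by
      filter_upwards [hmem] with τ hτ
      exact hm _ hτ
    have h2 := h1.deriv_eq
    rw [deriv_const, deriv_fun_sum fun a _ => ((an_comp (h.analytic_l a) hz _).differentiableAt.const_mul _)] at h2
    refine Eq.trans (Finset.sum_congr rfl fun a _ => ?_) h2
    rw [deriv_const_mul _ (an_comp (h.analytic_l a) hz _).differentiableAt]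
  have hz0 : ∀ a : Fin s, z (Sum.inr a) ≠ 0 := fun a => by
    rw [← h.exp a z hz]
    exact Complex.exp_ne_zero _
  rw [Finset.sum_eq_single k] at hs
  · have h1 := hd k
    rw [if_pos rfl] at h1
    rcases mul_eq_zero.1 hs with h2 | h2
    · exact_mod_cast h2
    · rw [h2, zero_mul] at h1
      exact absurd h1 zero_ne_one
  · intro a _ ha
    have h1 := hd a
    rw [if_neg ha] at h1
    rw [(mul_eq_zero.1 h1).resolve_right (hz0 a), mul_zero]
  · intro h1
    exact absurd (Finset.mem_univ _) h1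

theorem BrF.indU (h : BrF U Λ ty u l) (a : Fin n → ℂ) (b : ℂ) (hm : ∀ z ∈ U, ∑ i, a i * u i z = b) : a = 0 := by
  funext i
  obtain ⟨z, hz, hz0⟩ := h.point
  have hmem := ln_mem h.isOpen hz (Sum.inl i)
  have hd : ∀ j, ℘'[Λ (ty j)] (u j z) * deriv (fun τ => u j (ln z (Sum.inl i) τ)) 0 = if j = i then 1 else 0 := by
    intro j
    have ha := an_comp (h.analytic_u j) hz (Sum.inl i)
    have h1 : (fun τ => ℘[Λ (ty j)] (u j (ln z (Sum.inl i) τ))) =ᶠ[𝓝 0]
        fun τ => z (Sum.inl j) + (if j = i then 1 else 0) * τ := by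
      filter_upwards [hmem] with τ hτ
      rw [h.wp j _ hτ]
      by_cases hl : j = i
      · rw [hl, ln_same, if_pos rfl, one_mul]
      · rw [ln_ne _ (by simpa using hl), if_neg hl, zero_mul, add_zero]
    have hw : HasDerivAt ℘[Λ (ty j)] (℘'[Λ (ty j)] (u j z)) (u j (ln z (Sum.inl i) 0)) := by
      rw [ln_zero, ← PeriodPair.deriv_weierstrassP]
      exact ((Λ (ty j)).analyticOnNhd_weierstrassP (u j z) (h.u_notMem j z hz)).differentiableAt.hasDerivAt
    have h2 : HasDerivAt (℘[Λ (ty j)] ∘ fun τ => u j (ln z (Sum.inl i) τ))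
        (℘'[Λ (ty j)] (u j z) * deriv (fun τ => u j (ln z (Sum.inl i) τ)) 0) 0 :=
      HasDerivAt.comp (0 : ℂ) hw ha.differentiableAt.hasDerivAt
    have h3 : deriv (℘[Λ (ty j)] ∘ fun τ => u j (ln z (Sum.inl i) τ)) 0 = _ := h1.deriv_eq
    rw [h2.deriv] at h3
    rw [h3, deriv_const_add, deriv_const_mul _ (by fun_prop), deriv_id'', mul_one]
  have hs : ∑ j, a j * deriv (fun τ => u j (ln z (Sum.inl i) τ)) 0 = 0 := by
    have h1 : (fun τ => ∑ j, a j * u j (ln z (Sum.inl i) τ)) =ᶠ[𝓝 0] fun _ => b := by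
      filter_upwards [hmem] with τ hτ
      exact hm _ hτ
    have h2 := h1.deriv_eq
    rw [deriv_const, deriv_fun_sum fun j _ => ((an_comp (h.analytic_u j) hz _).differentiableAt.const_mul _)] at h2
    refine Eq.trans (Finset.sum_congr rfl fun j _ => ?_) h2
    rw [deriv_const_mul _ (an_comp (h.analytic_u j) hz _).differentiableAt]
  rw [Finset.sum_eq_single i] at hs
  · have h1 := hd i
    rw [if_pos rfl] at h1
    rcases mul_eq_zero.1 hs with h2 | h2
    · exact h2
    · rw [h2, mul_zero] at h1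
      exact absurd h1 zero_ne_one
  · intro j _ hj
    have h1 := hd j
    rw [if_neg hj] at h1
    rw [(mul_eq_zero.1 h1).resolve_left (hz0 j), mul_zero]
  · intro h1
    exact absurd (Finset.mem_univ _) h1

/-- the functions `u_i`, `ζ(u_i)`, `l_k` -/
noncomputable def vf (Λ : Fin q → PeriodPair) (ty : Fin n → Fin q) (u : Fin n → (Cf n s → ℂ) → ℂ)
    (l : Fin s → (Cf n s → ℂ) → ℂ) : Fin n ⊕ (Fin n ⊕ Fin s) → (Cf n s → ℂ) → ℂ :=
  Sum.elim u (Sum.elim (fun i z => H667R3.zeta (Λ (ty i)) (u i z)) l)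

/-- the names of the functions among the general ones -/
def bf : Fin n ⊕ (Fin n ⊕ Fin s) → Pool.Agent.Y776.Cv.Nf n s :=
  Sum.elim (fun i => Sum.inr (Sum.inr (Sum.inl i)))
    (Sum.elim (fun i => Sum.inr (Sum.inr (Sum.inr (Sum.inl i)))) fun k => Sum.inl k)

theorem vf_eq (i : Fin n ⊕ (Fin n ⊕ Fin s)) : Pool.Agent.N207.AX.ye Λ ty u l (bf i) = vf Λ ty u l i := by
  rcases i with i | i | k <;> rfl

theorem BrF.an (h : BrF U Λ ty u l) (i : Fin n ⊕ (Fin n ⊕ Fin s)) : AnalyticOnNhd ℂ (vf Λ ty u l i) U := by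
  rw [← vf_eq]
  exact Pool.Agent.N945.AX.ye_an h.analytic_u h.u_notMem h.analytic_l _

/-- **Fixed curves**: the functions `u_i`, `ζ(u_i)`, `l_k` are algebraically independent over the rational functions of
the `℘(u_i)` and the `exp(l_k)`. -/
theorem BrF.ind (h : BrF U Λ ty u l) : Ind U (vf Λ ty u l) := by
  obtain ⟨e, he, hI⟩ := Pool.Agent.N945.AX.ell (Pool.Agent.N301.AX.ind Pool.Agent.N878.AX.line) (Cf n s) q n s U Λ ty
    u l h.isOpen h.isPreconnected h.nonempty h.nohom h.analytic_u h.u_notMem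
    (fun _ a b _ _ hm => h.indU a b hm) h.analytic_l h.indT
  have hcard : Fintype.card (Fin (s + 2 * n)) = Fintype.card (Fin n ⊕ (Fin n ⊕ Fin s)) := by
    simp only [Fintype.card_fin, Fintype.card_sum]
    ring
  let g : Fin (s + 2 * n) ≃ Fin n ⊕ (Fin n ⊕ Fin s) := Fintype.equivOfCardEq hcard
  have hs : ∀ y : Fin n ⊕ (Fin n ⊕ Fin s), ∃ k, bf (g k) = (bf y : Pool.Agent.Y776.Cv.Nf n s) :=
    fun y => ⟨g.symm y, by rw [g.apply_symm_apply]⟩
  have halg : ∀ (f : (Cf n s → ℂ) → ℂ) (x : Cf n s), (∀ z ∈ U, f z = z x) →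
      ∃ Q : Polynomial (MvPolynomial (Cf n s) ℂ), Q ≠ 0 ∧ ∀ z ∈ U, Q.eval₂ (MvPolynomial.eval z) (f z) = 0 :=
    fun f x hf => alg_coord x hf
  have h1 := Pool.Agent.N207.AX.exch (f := Pool.Agent.N207.AX.ye Λ ty u l) (b := fun k => bf (g k)) he hI (by
    rintro (k | k | i | i | i)
    · exact Or.inl (hs (Sum.inr (Sum.inr k)))
    · exact Or.inr (halg _ (Sum.inr k) (h.exp k))
    · exact Or.inl (hs (Sum.inl i))
    · exact Or.inl (hs (Sum.inr (Sum.inl i)))
    · exact Or.inr (halg _ (Sum.inl i) (h.wp i)))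
  have h2 := h1.comp g.symm.injective
  have h3 : (fun k => Pool.Agent.N207.AX.ye Λ ty u l (bf (g (g.symm k)))) = vf Λ ty u l := by
    funext k
    rw [g.apply_symm_apply, vf_eq]
  rw [h3] at h2
  exact h2

end Pool.Agent.V8H73.RN
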