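import Pool.Agent.Results.MP_ae0f86_nt.ConjugateOneMotives
import Pool.Agent.Y577.LU.L1
import Pool.Agent.Y685.Scale

/-!
# The universal family of elliptic curves with points and numbers
-/

set_option autoImplicit false
set_option linter.unusedSectionVars false

open Filter Topology
open scoped PeriodPair

namespace Pool.Agent.V8H73.RN

open Pool.Agent.Results.MP_ae0f86_nt.ConjugateOneMotives
open Pool.Agent.Y685 (Hm)

/-- the coordinates: `g₂, g₃`, the first coordinates of the points, the numbers -/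
abbrev Co (r s : ℕ) : Type := Fin 2 ⊕ (Fin r ⊕ Fin s)

/-- branches of the periods and logarithms -/
structure Br {r s : ℕ} (U : Set (Co r s → ℂ)) (Λ : (Co r s → ℂ) → PeriodPair) (p : Fin r → (Co r s → ℂ) → ℂ)
    (t : Fin s → (Co r s → ℂ) → ℂ) : Prop where
  isOpen : IsOpen U
  isPreconnected : IsPreconnected U
  nonempty : U.Nonempty
  analytic₁ : AnalyticOnNhd ℂ (fun z => (Λ z).ω₁) U
  analytic₂ : AnalyticOnNhd ℂ (fun z => (Λ z).ω₂) U
  g₂ : ∀ z ∈ U, (Λ z).g₂ = z (Sum.inl 0)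
  g₃ : ∀ z ∈ U, (Λ z).g₃ = z (Sum.inl 1)
  analytic_p : ∀ i, AnalyticOnNhd ℂ (p i) U
  p_notMem : ∀ i, ∀ z ∈ U, p i z ∉ (Λ z).lattice
  wp : ∀ i, ∀ z ∈ U, ℘[Λ z] (p i z) = z (Sum.inr (Sum.inl i))
  analytic_t : ∀ k, AnalyticOnNhd ℂ (t k) U
  exp : ∀ k, ∀ z ∈ U, Complex.exp (t k z) = z (Sum.inr (Sum.inr k))

section line

variable {X : Type} [Fintype X] [DecidableEq X]

/-- the line in the direction of a coordinate -/
def ln (z : X → ℂ) (x : X) (τ : ℂ) : X → ℂ := z + τ • Pi.single x 1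

theorem ln_zero (z : X → ℂ) (x : X) : ln z x 0 = z := by simp [ln]

theorem ln_same (z : X → ℂ) (x : X) (τ : ℂ) : ln z x τ x = z x + τ := by simp [ln]

theorem ln_ne (z : X → ℂ) {x y : X} (h : y ≠ x) (τ : ℂ) : ln z x τ y = z y := by simp [ln, h]

theorem ln_an (z : X → ℂ) (x : X) (τ : ℂ) : AnalyticAt ℂ (ln z x) τ :=
  analyticAt_const.add (analyticAt_id.smul analyticAt_const)

theorem ln_mem {U : Set (X → ℂ)} (hU : IsOpen U) {z : X → ℂ} (hz : z ∈ U) (x : X) : ∀ᶠ τ in 𝓝 (0 : ℂ), ln z x τ ∈ U := by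
  have h1 : ContinuousAt (ln z x) 0 := (ln_an z x 0).continuousAt
  exact h1.eventually_mem (hU.mem_nhds (by rw [ln_zero]; exact hz))

theorem an_comp {U : Set (X → ℂ)} {f : (X → ℂ) → ℂ} (hf : AnalyticOnNhd ℂ f U) {z : X → ℂ} (hz : z ∈ U) (x : X) :
    AnalyticAt ℂ (fun τ => f (ln z x τ)) 0 := by
  refine AnalyticAt.comp_of_eq (g := f) (f := ln z x) (hf z hz) (ln_an z x 0) (ln_zero z x)

end line

variable {r s : ℕ} {U : Set (Co r s → ℂ)} {Λ : (Co r s → ℂ) → PeriodPair} {p : Fin r → (Co r s → ℂ) → ℂ}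
  {t : Fin s → (Co r s → ℂ) → ℂ}

/-- a small nonzero number outside a finite set -/
theorem small {P : ℂ → Prop} (h : ∀ᶠ τ in 𝓝 (0 : ℂ), P τ) (S : Finset ℂ) : ∃ τ, P τ ∧ τ ≠ 0 ∧ τ ∉ S := by
  obtain ⟨δ, hδ, hP⟩ := Metric.eventually_nhds_iff_ball.1 h
  have hinf : (Metric.ball (0 : ℂ) δ).Infinite :=
    infinite_of_mem_nhds 0 (Metric.ball_mem_nhds 0 hδ)
  obtain ⟨τ, hτ, hτ2⟩ := hinf.exists_notMem_finset (insert 0 S)
  rw [Finset.mem_insert, not_or] at hτ2
  exact ⟨τ, hP τ hτ, hτ2.1, hτ2.2⟩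

theorem Br.nonconst (h : Br U Λ p t) (c : ℂ) : ∃ z ∈ U, (Λ z).ω₂ / (Λ z).ω₁ ≠ c := by
  by_contra hcon
  push Not at hcon
  obtain ⟨z₁, hz₁⟩ := h.nonempty
  -- a point with `g₂ ≠ 0`
  obtain ⟨z₀, hz₀, hg⟩ : ∃ z₀ ∈ U, z₀ (Sum.inl 0) ≠ 0 := by
    by_cases h0 : z₁ (Sum.inl 0) = 0
    · obtain ⟨τ, h1, h2, -⟩ := small (ln_mem h.isOpen hz₁ (Sum.inl 0)) ∅
      refine ⟨_, h1, ?_⟩
      rw [ln_same, h0, zero_add]
      exact h2
    · exact ⟨z₁, hz₁, h0⟩
  have hne : ∀ z, (Λ z).ω₁ ≠ 0 := by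
    intro z hz
    have h1 := (Λ z).indep
    have h2 := h1.ne_zero 0
    exact h2 (by simpa using hz)
  have key : ∀ z ∈ U, z (Sum.inl 0) ^ 3 * z₀ (Sum.inl 1) ^ 2 = z (Sum.inl 1) ^ 2 * z₀ (Sum.inl 0) ^ 3 := by
    intro z hz
    have ha : (Λ z).ω₁ / (Λ z₀).ω₁ ≠ 0 := div_ne_zero (hne z) (hne z₀)
    have h1 : (Λ z).ω₁ / (Λ z₀).ω₁ * (Λ z₀).ω₁ = (Λ z).ω₁ := div_mul_cancel₀ _ (hne z₀)
    have h2 : (Λ z).ω₁ / (Λ z₀).ω₁ * (Λ z₀).ω₂ = (Λ z).ω₂ := by
      have e1 : (Λ z₀).ω₂ = c * (Λ z₀).ω₁ := by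
        rw [← hcon z₀ hz₀, div_mul_cancel₀ _ (hne z₀)]
      have e2 : (Λ z).ω₂ = c * (Λ z).ω₁ := by
        rw [← hcon z hz, div_mul_cancel₀ _ (hne z)]
      rw [e1, e2, ← mul_assoc, mul_comm _ c, mul_assoc, h1]
    have hm : Hm (Λ z₀) (Λ z) ((Λ z).ω₁ / (Λ z₀).ω₁) := by
      refine ⟨ha, fun x => ?_⟩
      rw [PeriodPair.mem_lattice, PeriodPair.mem_lattice]
      refine exists_congr fun m => exists_congr fun n => ?_
      constructor
      · intro h3
        apply mul_left_cancel₀ ha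
        rw [← h3, mul_add, mul_left_comm, h1, mul_left_comm, h2]
      · intro h3
        rw [← h3, mul_add, mul_left_comm, h1, mul_left_comm, h2]
    have h3 := hm.g₂
    have h4 := hm.g₃
    rw [h.g₂ z hz, h.g₂ z₀ hz₀, eq_div_iff (pow_ne_zero _ ha)] at h3
    rw [h.g₃ z hz, h.g₃ z₀ hz₀, eq_div_iff (pow_ne_zero _ ha)] at h4
    rw [← h3, ← h4]
    ring
  obtain ⟨τ, h1, h2, h3⟩ := small (ln_mem h.isOpen hz₀ (Sum.inl 1)) {-(2 * z₀ (Sum.inl 1))}
  have h4 := key _ h1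
  rw [ln_same, ln_ne _ (by simp)] at h4
  have h5 : τ * (τ + 2 * z₀ (Sum.inl 1)) * z₀ (Sum.inl 0) ^ 3 = 0 := by linear_combination -h4
  rw [mul_eq_zero, mul_eq_zero] at h5
  rcases h5 with (h5 | h5) | h5
  · exact h2 h5
  · apply h3
    rw [Finset.mem_singleton]
    linear_combination h5
  · exact pow_ne_zero _ hg h5

theorem Br.indT (h : Br U Λ p t) (m : Fin s → ℤ) (b : ℂ) (hm : ∀ z ∈ U, ∑ k, (m k : ℂ) * t k z = b) : m = 0 := by
  funext k
  obtain ⟨z, hz⟩ := h.nonempty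
  have hmem := ln_mem h.isOpen hz (Sum.inr (Sum.inr k))
  have hd : ∀ l, deriv (fun τ => t l (ln z (Sum.inr (Sum.inr k)) τ)) 0 * z (Sum.inr (Sum.inr l)) =
      if l = k then 1 else 0 := by
    intro l
    have ha := an_comp (h.analytic_t l) hz (Sum.inr (Sum.inr k))
    have h1 : (fun τ => Complex.exp (t l (ln z (Sum.inr (Sum.inr k)) τ))) =ᶠ[𝓝 0]
        fun τ => z (Sum.inr (Sum.inr l)) + (if l = k then 1 else 0) * τ := by
      filter_upwards [hmem] with τ hτ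
      rw [h.exp l _ hτ]
      by_cases hl : l = k
      · rw [hl, ln_same, if_pos rfl, one_mul]
      · rw [ln_ne _ (by simpa using hl), if_neg hl, zero_mul, add_zero]
    have h2 := ha.differentiableAt.hasDerivAt.cexp
    have h3 := h1.deriv_eq
    rw [h2.deriv] at h3
    have h4 : deriv (fun τ : ℂ => z (Sum.inr (Sum.inr l)) + (if l = k then 1 else 0) * τ) 0 =
        if l = k then 1 else 0 := by
      rw [deriv_const_add, deriv_const_mul _ (by fun_prop), deriv_id'', mul_one]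
    rw [h4, ln_zero, h.exp l z hz, mul_comm] at h3
    exact h3
  have hs : ∑ l, (m l : ℂ) * deriv (fun τ => t l (ln z (Sum.inr (Sum.inr k)) τ)) 0 = 0 := by
    have h1 : (fun τ => ∑ l, (m l : ℂ) * t l (ln z (Sum.inr (Sum.inr k)) τ)) =ᶠ[𝓝 0] fun _ => b := by
      filter_upwards [hmem] with τ hτ
      exact hm _ hτ
    have h2 := h1.deriv_eq
    rw [deriv_const, deriv_fun_sum fun l _ => ((an_comp (h.analytic_t l) hz _).differentiableAt.const_mul _)] at h2
    refine Eq.trans (Finset.sum_congr rfl fun l _ => ?_) h2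
    rw [deriv_const_mul _ (an_comp (h.analytic_t l) hz _).differentiableAt]
  have hz0 : ∀ l : Fin s, z (Sum.inr (Sum.inr l)) ≠ 0 := fun l => by
    rw [← h.exp l z hz]
    exact Complex.exp_ne_zero _
  rw [Finset.sum_eq_single k] at hs
  · have h1 := hd k
    rw [if_pos rfl] at h1
    rcases mul_eq_zero.1 hs with h2 | h2
    · exact_mod_cast h2
    · rw [h2, zero_mul] at h1
      exact absurd h1 zero_ne_one
  · intro l _ hl
    have h1 := hd l
    rw [if_neg hl] at h1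
    rw [(mul_eq_zero.1 h1).resolve_right (hz0 l), mul_zero]
  · intro h1
    exact absurd (Finset.mem_univ _) h1

theorem Br.indP (h : Br U Λ p t) (n : Fin r → ℤ) (hn : ∀ z ∈ U, ∑ i, (n i : ℂ) * p i z ∈ (Λ z).lattice) : n = 0 := by
  funext i
  -- a point at which the derivatives are not zero
  obtain ⟨z, hz, hz0⟩ : ∃ z ∈ U, ∀ j, ℘'[Λ z] (p j z) ≠ 0 := by
    obtain ⟨z₁, hz₁⟩ := h.nonempty
    obtain ⟨τ, h1, -, h3⟩ := small (ln_mem h.isOpen hz₁ (Sum.inl 1))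
      (Finset.univ.image fun j : Fin r => 4 * z₁ (Sum.inr (Sum.inl j)) ^ 3 -
        z₁ (Sum.inl 0) * z₁ (Sum.inr (Sum.inl j)) - z₁ (Sum.inl 1))
    refine ⟨_, h1, fun j h0 => h3 ?_⟩
    have h4 := (Λ (ln z₁ (Sum.inl 1) τ)).derivWeierstrassP_sq (p j (ln z₁ (Sum.inl 1) τ)) (h.p_notMem j _ h1)
    rw [h0, h.wp j _ h1, h.g₂ _ h1, h.g₃ _ h1, ln_same, ln_ne _ (by simp), ln_ne _ (by simp)] at h4
    rw [Finset.mem_image]
    exact ⟨j, Finset.mem_univ _, by linear_combination -h4⟩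
  set e : Co r s := Sum.inr (Sum.inl i) with he
  have hmem := ln_mem h.isOpen hz e
  have hm : ∀ᶠ τ in 𝓝 (0 : ℂ), Hm (Λ (ln z e τ)) (Λ z) 1 := by
    filter_upwards [hmem] with τ hτ
    have h1 := Pool.Agent.Y577.LU.lat_unique (Λ (ln z e τ)) (Λ z)
      (by rw [h.g₂ _ hτ, h.g₂ z hz, ln_ne _ (by simp [he])])
      (by rw [h.g₃ _ hτ, h.g₃ z hz, ln_ne _ (by simp [he])])
    exact ⟨one_ne_zero, fun x => by rw [one_mul, h1]⟩
  have hd : ∀ j, ℘'[Λ z] (p j z) * deriv (fun τ => p j (ln z e τ)) 0 = if j = i then 1 else 0 := by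
    intro j
    have ha := an_comp (h.analytic_p j) hz e
    have h1 : (fun τ => ℘[Λ z] (p j (ln z e τ))) =ᶠ[𝓝 0]
        fun τ => z (Sum.inr (Sum.inl j)) + (if j = i then 1 else 0) * τ := by
      filter_upwards [hmem, hm] with τ hτ hmτ
      have h2 := hmτ.wp (p j (ln z e τ))
      rw [one_mul, one_pow, div_one] at h2
      rw [h2, h.wp j _ hτ]
      by_cases hl : j = i
      · rw [hl, he, ln_same, if_pos rfl, one_mul]
      · rw [ln_ne _ (by simpa [he] using hl), if_neg hl, zero_mul, add_zero]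
    have hw : HasDerivAt ℘[Λ z] (℘'[Λ z] (p j z)) (p j (ln z e 0)) := by
      rw [ln_zero, ← PeriodPair.deriv_weierstrassP]
      exact ((Λ z).analyticOnNhd_weierstrassP (p j z) (h.p_notMem j z hz)).differentiableAt.hasDerivAt
    have h2 : HasDerivAt (℘[Λ z] ∘ fun τ => p j (ln z e τ))
        (℘'[Λ z] (p j z) * deriv (fun τ => p j (ln z e τ)) 0) 0 :=
      HasDerivAt.comp (0 : ℂ) hw ha.differentiableAt.hasDerivAt
    have h3 : deriv (℘[Λ z] ∘ fun τ => p j (ln z e τ)) 0 = _ := h1.deriv_eq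
    rw [h2.deriv] at h3
    rw [h3, deriv_const_add, deriv_const_mul _ (by fun_prop), deriv_id'', mul_one]
  have hs : ∑ j, (n j : ℂ) * deriv (fun τ => p j (ln z e τ)) 0 = 0 := by
    have hsum : AnalyticAt ℂ (fun τ => ∑ j, (n j : ℂ) * p j (ln z e τ)) 0 :=
      Finset.analyticAt_fun_sum _ fun j _ => analyticAt_const.mul (an_comp (h.analytic_p j) hz e)
    have h0 : (fun τ => ∑ j, (n j : ℂ) * p j (ln z e τ)) =ᶠ[𝓝 0] fun _ => ∑ j, (n j : ℂ) * p j (ln z e 0) := by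
      have h1 := hsum.continuousAt.eventually_mem
        ((Λ z).compl_lattice_sdiff_singleton_mem_nhds (∑ j, (n j : ℂ) * p j (ln z e 0)))
      filter_upwards [h1, hmem, hm] with τ h2 hτ hmτ
      have h3 := (hmτ.mem _).2 (hn _ hτ)
      rw [one_mul] at h3
      by_contra hne
      exact h2 ⟨h3, hne⟩
    have h2 := h0.deriv_eq
    rw [deriv_const, deriv_fun_sum fun l _ => ((an_comp (h.analytic_p l) hz _).differentiableAt.const_mul _)] at h2
    refine Eq.trans (Finset.sum_congr rfl fun l _ => ?_) h2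
    rw [deriv_const_mul _ (an_comp (h.analytic_p l) hz _).differentiableAt]
  rw [Finset.sum_eq_single i] at hs
  · have h1 := hd i
    rw [if_pos rfl] at h1
    rcases mul_eq_zero.1 hs with h2 | h2
    · exact_mod_cast h2
    · rw [h2, mul_zero] at h1
      exact absurd h1 zero_ne_one
  · intro l _ hl
    have h1 := hd l
    rw [if_neg hl] at h1
    rw [(mul_eq_zero.1 h1).resolve_left (hz0 l), mul_zero]
  · intro h1
    exact absurd (Finset.mem_univ _) h1

theorem alg_coord {X : Type} {U : Set (X → ℂ)} {f : (X → ℂ) → ℂ} (x : X) (h : ∀ z ∈ U, f z = z x) : Algebraic U f := by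
  refine ⟨Polynomial.X - Polynomial.C (MvPolynomial.X x), Polynomial.X_sub_C_ne_zero _, fun z hz => ?_⟩
  rw [Polynomial.eval₂_sub, Polynomial.eval₂_X, Polynomial.eval₂_C, MvPolynomial.eval_X, h z hz, sub_self]

/-- the universal family satisfies the conditions -/
theorem Br.family (h : Br U Λ p t) : Family U Λ p t where
  isOpen := h.isOpen
  isPreconnected := h.isPreconnected
  nonempty := h.nonempty
  analytic₁ := h.analytic₁
  analytic₂ := h.analytic₂
  algebraic_g₂ := alg_coord _ h.g₂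
  algebraic_g₃ := alg_coord _ h.g₃
  nonconstant := h.nonconst
  analytic_p := h.analytic_p
  p_notMem := h.p_notMem
  algebraic_wp := fun i => alg_coord _ (h.wp i)
  analytic_t := h.analytic_t
  algebraic_exp := fun k => alg_coord _ (h.exp k)
  independent_p := h.indP
  independent_t := h.indT

end Pool.Agent.V8H73.RN
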