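import Pool.Agent.V8H73.RN.Main
import Pool.Agent.Y119.PLM.Main

/-!
# Points over almost all number fields: functions which do not depend on the generator
-/

set_option autoImplicit false
set_option linter.unusedSectionVars false

open Polynomial Filter Topology NumberField

namespace Pool.Agent.V8H73.RN

open Pool.Agent.X255.NP Pool.Agent.X255.RH
open Pool.Agent.N207.GS (Irr Fib)
open Pool.Agent.Y890.MV

variable {g : ℕ} {Y σ : Type} [Fintype Y] [DecidableEq Y] [Fintype σ] [DecidableEq σ]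

/-- the pieces of the fibres -/
def Pieces1 {X : Type} (V : Set (X → ℂ)) (f : σ → (X → ℂ) → ℂ) (W : (X → ℂ) → Set (σ → ℂ)) : Prop :=
  ∀ x ∈ V, ∀ w ∈ W x, ∃ S : Set (σ → ℂ), Irr S ∧ (fun s => f s x) ∈ S ∧ w ∈ S ∧ S ⊆ Fib V f x

/-- forget the generator -/
def fg (v : Option Y → ℂ) : Y → ℂ := fun y => v (some y)

theorem fg_cont : Continuous (fg (Y := Y)) := continuous_pi fun _ => continuous_apply _

theorem fg_an (v : Option Y → ℂ) : AnalyticAt ℂ (fg (Y := Y)) v := by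
  rw [analyticAt_pi_iff]
  exact fun y => (ContinuousLinearMap.proj (R := ℂ) (φ := fun _ : Option Y => ℂ) (some y)).analyticAt v

theorem fg_conn {U : Set (Y → ℂ)} (hU : IsPreconnected U) : IsPreconnected (fg ⁻¹' U : Set (Option Y → ℂ)) := by
  have h1 : IsPreconnected ((Set.univ : Set ℂ) ×ˢ U) := isPreconnected_univ.prod hU
  have h2 : Continuous fun p : ℂ × (Y → ℂ) => (fun o : Option Y => o.elim p.1 p.2 : Option Y → ℂ) := by
    refine continuous_pi fun o => ?_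
    rcases o with _ | y
    · exact continuous_fst
    · exact (continuous_apply y).comp continuous_snd
  have h3 := h1.image _ h2.continuousOn
  refine (congrArg IsPreconnected ?_).mp h3
  ext v
  constructor
  · rintro ⟨p, hp, rfl⟩
    exact hp.2
  · intro hv
    refine ⟨(v none, fg v), ⟨Set.mem_univ _, hv⟩, ?_⟩
    funext o
    rcases o with _ | y <;> rfl

theorem pieces_fg {U : Set (Y → ℂ)} {f : σ → (Y → ℂ) → ℂ} {W : (Y → ℂ) → Set (σ → ℂ)} (h : Pieces1 U f W) :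
    Pieces (fg ⁻¹' U) (fun s v => f s (fg v)) (fun v => W (fg v)) := by
  intro v hv w hw
  obtain ⟨S, h1, h2, h3, h4⟩ := h (fg v) hv w hw
  refine ⟨S, h1, h2, h3, fun a ha p hp => ?_⟩
  have h5 := h4 ha
  let φ : MvPolynomial (Option Y) ℂ →+* MvPolynomial Y ℂ :=
    (MvPolynomial.aeval (fun o : Option Y => o.elim (MvPolynomial.C (v none)) MvPolynomial.X)).toRingHom
  have hφ : ∀ y : Y → ℂ, (MvPolynomial.eval y).comp φ = MvPolynomial.eval (fun o : Option Y => o.elim (v none) y) := by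
    intro y
    refine MvPolynomial.ringHom_ext (fun r => ?_) fun o => ?_
    · simp [φ]
    · rcases o with _ | y' <;> simp [φ]
  have hev : ∀ (y : Y → ℂ) (b : σ → ℂ), (MvPolynomial.map φ p).eval₂ (MvPolynomial.eval y) b =
      p.eval₂ (MvPolynomial.eval (fun o : Option Y => o.elim (v none) y)) b := by
    intro y b
    rw [MvPolynomial.eval₂_map, hφ]
  have h6 := h5 (MvPolynomial.map φ p) (by
    intro y hy
    have h7 := hp (fun o : Option Y => o.elim (v none) y) hy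
    rw [evM, hev]
    exact h7)
  rw [evX, hev] at h6
  have h8 : (fun o : Option Y => o.elim (v none) (fg v)) = v := by
    funext o
    rcases o with _ | y <;> rfl
  rw [h8] at h6
  rw [evX]
  exact h6

/-- the point over the root `x` -/
def ptY (x : ℂ) (β : Y × Fin g → ℂ) : Y → ℂ := fun y => ∑ l, β (y, l) * x ^ (l : ℕ)

/-- The polynomial has degree `g` and simple roots, the denominator is not zero, and all relations of the functions at the
points over all roots for which these points are in `K` hold on the product of the sets `W`. -/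
def GoodY (K : Set (Y → ℂ)) (f : σ → (Y → ℂ) → ℂ) (W : (Y → ℂ) → Set (σ → ℂ)) (ξ : ℕ → ℂ) (k : ℕ)
    (T : ℝ) (n : Jx g Y → ℤ) : Prop :=
  av n (Fin.last g) ≠ 0 ∧ (pol (av n)).Separable ∧ dv n ≠ 0 ∧
    ∀ (F : Type) [Field F] [NumberField F], Module.finrank ℚ F ≤ k → ∀ (io : F →+* ℂ) (Z : Finset ℂ),
    (∀ x, x ∈ Z ↔ (pol (av n)).eval x = 0 ∧ ptY x (betaC n) ∈ K) →
    ∀ (c : ({x // x ∈ Z} × σ → Fin (k + 1)) → Fin k → 𝓞 F), (∀ l b (φ : F →+* ℂ), ‖φ (c l b : F)‖ ≤ T ^ k) →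
    ∑ l, (∑ b : Fin k, ξ b * io (c l b : F)) * ∏ q : {x // x ∈ Z} × σ, f q.2 (ptY q.1 (betaC n)) ^ (l q : ℕ) = 0 →
    ∀ w : {x // x ∈ Z} → σ → ℂ, (∀ e, w e ∈ W (ptY e.1 (betaC n))) →
      ∑ l, (∑ b : Fin k, ξ b * io (c l b : F)) * ∏ q : {x // x ∈ Z} × σ, w q.1 q.2 ^ (l q : ℕ) = 0

theorem goodB_goodY {K : Set (Y → ℂ)} {f : σ → (Y → ℂ) → ℂ} {W : (Y → ℂ) → Set (σ → ℂ)} {ξ : ℕ → ℂ} {k : ℕ}
    {T : ℝ} {n : Jx g Y → ℤ}
    (h : GoodB (fg ⁻¹' K) (fun s v => f s (fg v)) (fun v => W (fg v)) ξ k T n) : GoodY K f W ξ k T n := by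
  classical
  obtain ⟨h1, h2, h3, h4⟩ := h
  refine ⟨h1, h2, h3, ?_⟩
  intro F _ _ hF io Z hZ
  have h5 : Z = rtK (fg ⁻¹' K) n := by
    ext x
    rw [hZ]
    unfold rtK
    rw [Finset.mem_filter, Multiset.mem_toFinset, mem_roots h2.ne_zero]
    exact Iff.rfl
  subst h5
  intro c hc hrel w hw
  exact h4 F hF io c hc hrel w hw

open scoped Classical in
/-- **Almost all points over almost all number fields.** -/
theorem main_Y (hg : 0 < g) {U : Set (Y → ℂ)} (hU : IsPreconnected U) (hUo : IsOpen U)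
    {f : σ → (Y → ℂ) → ℂ} (hf : ∀ s, AnalyticOnNhd ℂ (f s) U) {W : (Y → ℂ) → Set (σ → ℂ)}
    (hW : Pieces1 U f W) (K : ℕ → Set (Y → ℂ)) (hK : ∀ k, IsClosed (K k) ∧ K k ⊆ U) (ξ : ℕ → ℂ) :
    ∃ ω : ℕ → ℕ, Tendsto ω atTop atTop ∧ Monotone ω ∧ ∀ T,
      ω T * ((box g Y T).filter fun n => ¬ GoodY (K (ω T)) f W ξ (ω T) T n).card ≤ (box g Y T).card := by
  obtain ⟨ω, h1, h2, h3⟩ := main_all (g := g) hg (fg_conn hU) (hUo.preimage fg_cont)
    (f := fun s v => f s (fg v)) (fun s v hv => (hf s (fg v) hv).comp (fg_an v)) (pieces_fg hW)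
    (fun k => fg ⁻¹' (K k)) (fun k => ⟨(hK k).1.preimage fg_cont, Set.preimage_mono (hK k).2⟩) ξ
  refine ⟨ω, h1, h2, fun T => le_trans (Nat.mul_le_mul_left _ (Finset.card_le_card fun n hn => ?_)) (h3 T)⟩
  rw [Finset.mem_filter] at hn ⊢
  exact ⟨hn.1, fun hno => hn.2 (goodB_goodY hno)⟩

/-- the same with polynomials as relations -/
def GoodP (K : Set (Y → ℂ)) (f : σ → (Y → ℂ) → ℂ) (W : (Y → ℂ) → Set (σ → ℂ)) (ξ : ℕ → ℂ) (k : ℕ)
    (T : ℝ) (n : Jx g Y → ℤ) : Prop :=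
  av n (Fin.last g) ≠ 0 ∧ (pol (av n)).Separable ∧ dv n ≠ 0 ∧
    ∀ (F : Type) [Field F] [NumberField F], Module.finrank ℚ F ≤ k → ∀ (io : F →+* ℂ) (Z : Finset ℂ),
    (∀ x, x ∈ Z ↔ (pol (av n)).eval x = 0 ∧ ptY x (betaC n) ∈ K) →
    ∀ R : MvPolynomial ({x // x ∈ Z} × σ) ℂ, (∀ y, R.degreeOf y ≤ k) →
      (∀ m, ∃ c : Fin k → 𝓞 F, (∀ b (φ : F →+* ℂ), ‖φ (c b : F)‖ ≤ T ^ k) ∧ R.coeff m = ∑ b : Fin k, ξ b * io (c b : F)) →
    MvPolynomial.eval (fun q : {x // x ∈ Z} × σ => f q.2 (ptY q.1 (betaC n))) R = 0 →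
    ∀ w : {x // x ∈ Z} → σ → ℂ, (∀ e, w e ∈ W (ptY e.1 (betaC n))) →
      MvPolynomial.eval (fun q : {x // x ∈ Z} × σ => w q.1 q.2) R = 0

theorem GoodY.poly {K : Set (Y → ℂ)} {f : σ → (Y → ℂ) → ℂ} {W : (Y → ℂ) → Set (σ → ℂ)} {ξ : ℕ → ℂ} {k : ℕ}
    {T : ℝ} {n : Jx g Y → ℤ} (h : GoodY K f W ξ k T n) : GoodP K f W ξ k T n := by
  obtain ⟨h1, h2, h3, h4⟩ := h
  refine ⟨h1, h2, h3, ?_⟩
  intro F _ _ hF io Z hZ R hR1 hR2 hR3 w hw
  choose c hc hc' using hR2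
  have h5 := h4 F hF io Z hZ (fun l => c (Finsupp.equivFunOnFinite.symm fun y => (l y : ℕ))) (fun l b φ => hc _ b φ)
    (by
      rw [← Y119.PLM.sum_expM hR1] at hR3
      rw [← hR3]
      refine Finset.sum_congr rfl fun l _ => ?_
      rw [hc']) w hw
  rw [← Y119.PLM.sum_expM hR1, ← h5]
  refine Finset.sum_congr rfl fun l _ => ?_
  rw [hc']

open scoped Classical in
/-- **Almost all points over almost all number fields.** -/
theorem main_P (hg : 0 < g) {U : Set (Y → ℂ)} (hU : IsPreconnected U) (hUo : IsOpen U)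
    {f : σ → (Y → ℂ) → ℂ} (hf : ∀ s, AnalyticOnNhd ℂ (f s) U) {W : (Y → ℂ) → Set (σ → ℂ)}
    (hW : Pieces1 U f W) (K : ℕ → Set (Y → ℂ)) (hK : ∀ k, IsClosed (K k) ∧ K k ⊆ U) (ξ : ℕ → ℂ) :
    ∃ ω : ℕ → ℕ, Tendsto ω atTop atTop ∧ Monotone ω ∧ ∀ T,
      ω T * ((box g Y T).filter fun n => ¬ GoodP (K (ω T)) f W ξ (ω T) T n).card ≤ (box g Y T).card := by
  obtain ⟨ω, h1, h2, h3⟩ := main_Y (g := g) hg hU hUo hf hW K hK ξ
  refine ⟨ω, h1, h2, fun T => le_trans (Nat.mul_le_mul_left _ (Finset.card_le_card fun n hn => ?_)) (h3 T)⟩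
  rw [Finset.mem_filter] at hn ⊢
  exact ⟨hn.1, fun hno => hn.2 hno.poly⟩

end Pool.Agent.V8H73.RN
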