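import Pool.Agent.V8H73.RN.Loc

/-!
# Counting integral vectors
-/

set_option autoImplicit false
set_option linter.unusedSectionVars false

open Polynomial Filter Topology NumberField

namespace Pool.Agent.V8H73.RN

open Pool.Agent.X255.NP Pool.Agent.X255.RH
open Pool.Agent.Y890.MV Matrix
open Pool.Agent.Y124 (Cov)

variable {g : ℕ} {Y : Type} [Fintype Y] [DecidableEq Y]

/-- the numerators of the coordinates -/
noncomputable def numJ (j : Fin g ⊕ (Y × Fin g)) : MvPolynomial (Jx g Y) ℂ :=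
  Sum.elim (fun i : Fin g => MvPolynomial.X (Sum.inl i.castSucc) * MvPolynomial.X (Sum.inr none))
    (fun q => MvPolynomial.X (Sum.inr (some q)) * MvPolynomial.X (Sum.inl (Fin.last g))) j

/-- the common denominator -/
noncomputable def delJ : MvPolynomial (Jx g Y) ℂ :=
  MvPolynomial.X (Sum.inl (Fin.last g)) * MvPolynomial.X (Sum.inr none)

/-- the lift of a polynomial -/
noncomputable def lift (D : ℕ) (P : MvPolynomial (Fin g ⊕ (Y × Fin g)) ℂ) : MvPolynomial (Jx g Y) ℂ :=
  ∑ m ∈ P.support, MvPolynomial.C (P.coeff m) * ((∏ j, numJ j ^ m j) * delJ ^ (D - ∑ j, m j))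

/-- quotients -/
noncomputable def quoJ (u : Jx g Y → ℂ) : Fin g ⊕ (Y × Fin g) → ℂ :=
  Sum.elim (fun i : Fin g => u (Sum.inl i.castSucc) / u (Sum.inl (Fin.last g)))
    (fun q => u (Sum.inr (some q)) / u (Sum.inr none))

theorem numJ_eval (u : Jx g Y → ℂ) (h1 : u (Sum.inl (Fin.last g)) ≠ 0) (h2 : u (Sum.inr none) ≠ 0)
    (j : Fin g ⊕ (Y × Fin g)) : MvPolynomial.eval u (numJ j) = MvPolynomial.eval u delJ * quoJ u j := by
  rcases j with j | j
  · simp only [numJ, delJ, quoJ, Sum.elim_inl, map_mul, MvPolynomial.eval_X]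
    field_simp
  · simp only [numJ, delJ, quoJ, Sum.elim_inr, map_mul, MvPolynomial.eval_X]
    field_simp

theorem lift_eval (D : ℕ) (P : MvPolynomial (Fin g ⊕ (Y × Fin g)) ℂ) (hP : P.totalDegree ≤ D) (u : Jx g Y → ℂ)
    (h1 : u (Sum.inl (Fin.last g)) ≠ 0) (h2 : u (Sum.inr none) ≠ 0) :
    MvPolynomial.eval u (lift D P) = MvPolynomial.eval u delJ ^ D * MvPolynomial.eval (quoJ u) P := by
  rw [lift, map_sum, MvPolynomial.eval_eq' (quoJ u) P, Finset.mul_sum]
  refine Finset.sum_congr rfl fun m hm => ?_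
  have h3 : ∑ j, m j ≤ D := by
    have h4 := MvPolynomial.le_totalDegree hm
    rw [Finsupp.sum_fintype _ _ (fun _ => rfl)] at h4
    exact h4.trans hP
  rw [map_mul, MvPolynomial.eval_C, map_mul, map_prod, map_pow]
  simp only [map_pow, numJ_eval u h1 h2, mul_pow]
  rw [Finset.prod_mul_distrib, Finset.prod_pow_eq_pow_sum]
  have h4 : MvPolynomial.eval u (delJ : MvPolynomial (Jx g Y) ℂ) ^ D =
      MvPolynomial.eval u delJ ^ (∑ j, m j) * MvPolynomial.eval u delJ ^ (D - ∑ j, m j) := by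
    rw [← pow_add, Nat.add_sub_cancel' h3]
  rw [h4]
  ring

theorem numJ_degree (j : Fin g ⊕ (Y × Fin g)) : (numJ j : MvPolynomial (Jx g Y) ℂ).totalDegree ≤ 2 := by
  rcases j with j | j
  · simp only [numJ, Sum.elim_inl]
    refine (MvPolynomial.totalDegree_mul _ _).trans ?_
    rw [MvPolynomial.totalDegree_X, MvPolynomial.totalDegree_X]
  · simp only [numJ, Sum.elim_inr]
    refine (MvPolynomial.totalDegree_mul _ _).trans ?_
    rw [MvPolynomial.totalDegree_X, MvPolynomial.totalDegree_X]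

theorem lift_degree (D : ℕ) (P : MvPolynomial (Fin g ⊕ (Y × Fin g)) ℂ) (hP : P.totalDegree ≤ D) :
    (lift D P).totalDegree ≤ 2 * D := by
  unfold lift
  refine MvPolynomial.totalDegree_finsetSum_le fun m hm => ?_
  have h3 : ∑ j, m j ≤ D := by
    have h4 := MvPolynomial.le_totalDegree hm
    rw [Finsupp.sum_fintype _ _ (fun _ => rfl)] at h4
    exact h4.trans hP
  refine (MvPolynomial.totalDegree_mul _ _).trans ?_
  rw [MvPolynomial.totalDegree_C, zero_add]
  refine (MvPolynomial.totalDegree_mul _ _).trans ?_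
  have h5 : (∏ j, (numJ j : MvPolynomial (Jx g Y) ℂ) ^ m j).totalDegree ≤ 2 * ∑ j, m j := by
    refine (MvPolynomial.totalDegree_finsetProd _ _).trans ?_
    rw [Finset.mul_sum]
    refine Finset.sum_le_sum fun j _ => (MvPolynomial.totalDegree_pow _ _).trans ?_
    rw [mul_comm]
    exact Nat.mul_le_mul_right _ (numJ_degree j)
  have h6 : ((delJ : MvPolynomial (Jx g Y) ℂ) ^ (D - ∑ j, m j)).totalDegree ≤ 2 * (D - ∑ j, m j) := by
    refine (MvPolynomial.totalDegree_pow _ _).trans ?_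
    rw [mul_comm]
    refine Nat.mul_le_mul_right _ ((MvPolynomial.totalDegree_mul _ _).trans ?_)
    rw [MvPolynomial.totalDegree_X, MvPolynomial.totalDegree_X]
  omega

theorem lift_ne (D : ℕ) (P : MvPolynomial (Fin g ⊕ (Y × Fin g)) ℂ) (hP : P.totalDegree ≤ D) (h0 : P ≠ 0) :
    lift D P ≠ 0 := by
  intro h
  apply h0
  refine MvPolynomial.funext fun x => ?_
  rw [map_zero]
  let u : Jx g Y → ℂ := Sum.elim (Fin.lastCases 1 fun i => x (Sum.inl i)) (fun o => o.elim 1 fun q => x (Sum.inr q))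
  have h1 : u (Sum.inl (Fin.last g)) = 1 := by simp [u]
  have h2 : u (Sum.inr none) = 1 := rfl
  have h3 := lift_eval D P hP u (by rw [h1]; exact one_ne_zero) (by rw [h2]; exact one_ne_zero)
  have h4 : quoJ u = x := by
    funext j
    rcases j with j | j
    · change u (Sum.inl j.castSucc) / u (Sum.inl (Fin.last g)) = _
      rw [h1, div_one]
      simp [u]
    · change u (Sum.inr (some j)) / u (Sum.inr none) = _
      rw [h2, div_one]
      rfl
  rw [h, map_zero, h4, delJ, map_mul, MvPolynomial.eval_X, MvPolynomial.eval_X, h1, h2, mul_one, one_pow,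
    one_mul] at h3
  exact h3.symm

theorem qC_quoJ (n : Jx g Y → ℤ) : qC n = quoJ fun j => (n j : ℂ) := by
  funext j
  rcases j with j | j
  · simp [qC, quoB, quo, quoJ, av]
  · simp [qC, quoB, quoJ, bv, dv]

theorem cov_lift {D m : ℕ} {E : Set (Jx g Y → ℤ)} (hE : ∀ n ∈ E, av n (Fin.last g) ≠ 0 ∧ dv n ≠ 0)
    (h : Cov D m (qC '' E)) : Cov (2 * D) m ((fun (n : Jx g Y → ℤ) j => (n j : ℂ)) '' E) := by
  classical
  obtain ⟨Φ, h1, h2, h3⟩ := h
  refine ⟨Φ.image (lift D), Finset.card_image_le.trans h1, ?_, ?_⟩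
  · intro P hP
    obtain ⟨Q, hQ, rfl⟩ := Finset.mem_image.1 hP
    exact ⟨lift_ne D Q (h2 Q hQ).2 (h2 Q hQ).1, lift_degree D Q (h2 Q hQ).2⟩
  · rintro _ ⟨n, hn, rfl⟩
    obtain ⟨P, hP, hP0⟩ := h3 _ ⟨n, hn, rfl⟩
    refine ⟨lift D P, Finset.mem_image_of_mem _ hP, ?_⟩
    have h4 : ((n (Sum.inl (Fin.last g)) : ℤ) : ℂ) ≠ 0 := by exact_mod_cast (hE n hn).1
    have h5 : ((n (Sum.inr none) : ℤ) : ℂ) ≠ 0 := by exact_mod_cast (hE n hn).2
    have h6 := lift_eval D P (h2 P hP).2 (fun j => (n j : ℂ)) h4 h5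
    rw [← qC_quoJ, hP0, mul_zero] at h6
    exact h6

/-- **The number of integral vectors on few hypersurfaces.** -/
theorem count_of_cov {D m : ℕ} (E : Set (Jx g Y → ℤ)) {T : ℝ} (hT : 1 ≤ T) (hE0 : ∀ n ∈ E, ∀ j, |(n j : ℝ)| ≤ T)
    (hE : ∀ n ∈ E, av n (Fin.last g) ≠ 0 ∧ dv n ≠ 0) (h : Cov D m (qC '' E)) :
    E.Finite ∧ (E.ncard : ℝ) ≤ m * (2 * D) * (3 * T) ^ (Fintype.card (Jx g Y) - 1) := by
  classical
  obtain ⟨hf1, hc1⟩ := int_count hT
  set B : Set ℚ := (fun n : ℤ => (n : ℚ)) '' {n : ℤ | |(n : ℝ)| ≤ T} with hB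
  have hBf : B.Finite := hf1.image _
  have hinj : Function.Injective fun (n : Jx g Y → ℤ) (j : Jx g Y) => (n j : ℚ) := by
    intro n n' hnn
    funext j
    have h1 : (n j : ℚ) = (n' j : ℚ) := congrFun hnn j
    exact_mod_cast h1
  have hcov : Cov (2 * D) m ((fun (s : Jx g Y → ℚ) j => algebraMap ℚ ℂ (s j)) ''
      ((fun (n : Jx g Y → ℤ) (j : Jx g Y) => (n j : ℚ)) '' E)) := by
    refine (cov_lift hE h).mono le_rfl le_rfl ?_
    rintro _ ⟨_, ⟨n, hn, rfl⟩, rfl⟩
    exact ⟨n, hn, by funext j; simp⟩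
  obtain ⟨h7, h8⟩ := cov_count (algebraMap ℚ ℂ) B hBf _ (by
    rintro _ ⟨n, hn, rfl⟩ j
    exact ⟨n j, hE0 n hn j, rfl⟩) hcov
  have hEf : E.Finite := h7.of_finite_image hinj.injOn
  refine ⟨hEf, ?_⟩
  rw [Set.ncard_image_of_injective _ hinj] at h8
  have h9 : (B.ncard : ℝ) ≤ 3 * T := by
    have h10 : B.ncard ≤ {n : ℤ | |(n : ℝ)| ≤ T}.ncard := Set.ncard_image_le hf1
    have h11 : (B.ncard : ℝ) ≤ ({n : ℤ | |(n : ℝ)| ≤ T}.ncard : ℝ) := by exact_mod_cast h10
    exact h11.trans hc1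
  have h10 : (E.ncard : ℝ) ≤ (m : ℝ) * ((2 * D : ℕ) * (B.ncard : ℝ) ^ (Fintype.card (Jx g Y) - 1)) := by exact_mod_cast h8
  refine h10.trans ?_
  rw [mul_assoc]
  push_cast
  gcongr

/-- the box of the integral vectors -/
noncomputable def box (g : ℕ) (Y : Type) [Fintype Y] [DecidableEq Y] (T : ℕ) : Finset (Jx g Y → ℤ) :=
  Fintype.piFinset fun _ => Finset.Icc (-(T : ℤ)) (T : ℤ)

theorem mem_box {T : ℕ} {n : Jx g Y → ℤ} : n ∈ box g Y T ↔ ∀ i, |n i| ≤ (T : ℤ) := by
  rw [box, Fintype.mem_piFinset]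
  simp only [Finset.mem_Icc, abs_le]

theorem icc_card (T : ℕ) : ((Finset.Icc (-(T : ℤ)) (T : ℤ)).card : ℝ) = 2 * T + 1 := by
  rw [Int.card_Icc]
  have h1 : ((T : ℤ) + 1 - -(T : ℤ)).toNat = 2 * T + 1 := by omega
  rw [h1]
  push_cast
  ring

theorem box_card (T : ℕ) : ((box g Y T).card : ℝ) = (2 * (T : ℝ) + 1) ^ Fintype.card (Jx g Y) := by
  rw [box, Fintype.card_piFinset, Finset.prod_const, Finset.card_univ]
  push_cast
  rw [icc_card]

open scoped Classical in
/-- conditions on the polynomial -/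
theorem box_av (T : ℕ) (p : (Fin (g + 1) → ℤ) → Prop) {δ : ℝ}
    (h : (((Pool.Agent.X255.RH.bx g T).filter p).card : ℝ) ≤ δ * (Pool.Agent.X255.RH.bx g T).card) :
    (((box g Y T).filter fun n => p (av n)).card : ℝ) ≤ δ * (box g Y T).card := by
  have h1 : ((box g Y T).filter fun n => p (av n)).card =
      ((Pool.Agent.X255.RH.bx g T).filter p).card * (Fintype.piFinset fun _ : Option (Y × Fin g) => Finset.Icc (-(T : ℤ)) (T : ℤ)).card := by
    rw [← Finset.card_product]
    refine Finset.card_nbij' (fun n => (av n, fun o => n (Sum.inr o))) (fun q => Sum.elim q.1 q.2) ?_ ?_ ?_ ?_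
    · intro n hn
      have hn' := Finset.mem_filter.1 (Finset.mem_coe.1 hn)
      rw [Finset.mem_coe, Finset.mem_product, Finset.mem_filter]
      refine ⟨⟨?_, hn'.2⟩, ?_⟩
      · rw [Pool.Agent.X255.RH.bx, Fintype.mem_piFinset]
        exact fun i => Fintype.mem_piFinset.1 hn'.1 (Sum.inl i)
      · rw [Fintype.mem_piFinset]
        exact fun i => Fintype.mem_piFinset.1 hn'.1 (Sum.inr i)
    · rintro ⟨a, b⟩ hab
      rw [Finset.mem_coe, Finset.mem_product, Finset.mem_filter] at hab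
      rw [Finset.mem_coe, Finset.mem_filter]
      refine ⟨?_, hab.1.2⟩
      rw [box, Fintype.mem_piFinset]
      rintro (i | i)
      · exact Fintype.mem_piFinset.1 hab.1.1 i
      · exact Fintype.mem_piFinset.1 hab.2 i
    · intro n _
      funext j
      rcases j with j | j <;> rfl
    · rintro ⟨a, b⟩ _
      rfl
  have h2 : (box g Y T).card =
      (Pool.Agent.X255.RH.bx g T).card * (Fintype.piFinset fun _ : Option (Y × Fin g) => Finset.Icc (-(T : ℤ)) (T : ℤ)).card := by
    rw [box, Pool.Agent.X255.RH.bx, Fintype.card_piFinset, Fintype.card_piFinset, Fintype.card_piFinset, Fintype.prod_sum_type]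
  rw [h1, h2]
  push_cast
  rw [← mul_assoc]
  exact mul_le_mul_of_nonneg_right h (Nat.cast_nonneg _)

open scoped Classical in
/-- small denominators -/
theorem box_dv {T : ℕ} (hT : 1 ≤ T) {κ : ℝ} (hκ : 0 ≤ κ) :
    (((box g Y T).filter fun n => |(dv n : ℝ)| ≤ κ * T).card : ℝ) ≤ (κ + 1 / T) * (box g Y T).card := by
  have hTr : (1 : ℝ) ≤ T := by exact_mod_cast hT
  set I : Finset ℤ := Finset.Icc (-(T : ℤ)) (T : ℤ) with hI
  set I' : Finset ℤ := I.filter fun t => |(t : ℝ)| ≤ κ * T with hI'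
  have h1 : ((box g Y T).filter fun n => |(dv n : ℝ)| ≤ κ * T) =
      Fintype.piFinset (Function.update (fun _ : Jx g Y => I) (Sum.inr none) I') := by
    ext n
    rw [Finset.mem_filter, box, Fintype.mem_piFinset, Fintype.mem_piFinset]
    constructor
    · rintro ⟨h2, h3⟩ j
      by_cases hj : j = Sum.inr none
      · subst hj
        rw [Function.update_self, hI', Finset.mem_filter]
        exact ⟨h2 _, h3⟩
      · rw [Function.update_of_ne hj]
        exact h2 j
    · intro h2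
      have h3 := h2 (Sum.inr none)
      rw [Function.update_self, hI', Finset.mem_filter] at h3
      refine ⟨fun j => ?_, h3.2⟩
      by_cases hj : j = Sum.inr none
      · subst hj
        exact h3.1
      · have h4 := h2 j
        rw [Function.update_of_ne hj] at h4
        exact h4
  have h2 : (Fintype.piFinset (Function.update (fun _ : Jx g Y => I) (Sum.inr none) I')).card =
      I'.card * I.card ^ (Fintype.card (Jx g Y) - 1) := by
    rw [Fintype.card_piFinset, ← Finset.mul_prod_erase _ _ (Finset.mem_univ (Sum.inr none : Jx g Y)),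
      Function.update_self]
    congr 1
    rw [Finset.prod_congr rfl (g := fun _ => I.card) (by
      intro j hj
      rw [Function.update_of_ne (Finset.ne_of_mem_erase hj)]), Finset.prod_const,
      Finset.card_erase_of_mem (Finset.mem_univ _), Finset.card_univ]
  have hcpos : 0 < Fintype.card (Jx g Y) := Fintype.card_pos_iff.2 ⟨Sum.inr none⟩
  have h3 : (box g Y T).card = I.card * I.card ^ (Fintype.card (Jx g Y) - 1) := by
    rw [box, Fintype.card_piFinset, Finset.prod_const, Finset.card_univ, ← pow_succ']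
    congr 1
    omega
  have h4 : (I'.card : ℝ) ≤ (κ + 1 / T) * (I.card : ℝ) := by
    have h5 := Pool.Agent.X255.NH.int_interval T 0 κ hκ I' (fun t ht => by
      have h6 := (Finset.mem_filter.1 ht).2
      rw [zero_add, abs_div, abs_of_pos (show (0 : ℝ) < T by linarith), div_le_iff₀ (by linarith)]
      exact h6) hT
    rw [hI, icc_card]
    refine h5.trans ?_
    have h2 : 1 ≤ 1 / (T : ℝ) * (2 * T + 1) := by
      rw [div_mul_eq_mul_div, one_mul, le_div_iff₀ (by linarith)]
      linarith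
    nlinarith
  rw [h1, h2, h3]
  push_cast
  rw [← mul_assoc]
  exact mul_le_mul_of_nonneg_right h4 (by positivity)

end Pool.Agent.V8H73.RN
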