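import Pool.Agent.V8H73.RN.Count

/-!
# Relations at almost all rational points hold on the irreducible subsets of the fibre, with coefficients in number
fields which depend on the point

No hypothesis on the functions.
-/

set_option autoImplicit false
set_option linter.unusedSectionVars false

open NumberField

namespace Pool.Agent.V8H73.RN

open Pool.Agent.X255.NP
open Pool.Agent.N207.GS (spc sw sw_eval Irr Fib ident exists_char)
open Pool.Agent.Y890.MV Pool.Agent.Y890.SP
open Pool.Agent.Y124 (Cov RelK)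

/-- the exceptional points: some relation at `s`, with coefficients in a number field which may depend on `s`, does not
hold on an irreducible subset of the fibre -/
def ExcIN {X σ h : Type} [Fintype σ] [DecidableEq σ] [Fintype h] (δ : ℕ) (U : Set (X → ℂ))
    (f : σ → (X → ℂ) → ℂ) (Lc : Set (X → ℂ)) (m : ℕ) (ξ : h → ℂ) (A T : ℝ) : Set (X → ℚ) :=
  {s | (∀ i, Y120.HtLe ℚ T (s i)) ∧ (fun i => algebraMap ℚ ℂ (s i)) ∈ Lc ∧
    ∃ (F : IntermediateField ℚ ℂ) (_ : FiniteDimensional ℚ F), Module.finrank ℚ F ≤ m ∧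
    ∃ c : (σ → Fin (δ + 1)) → h → ℂ, (∀ l i, AE F (T ^ A) (c l i)) ∧
    ∑ l, (∑ i, ξ i * c l i) * ∏ y, f y (fun i => algebraMap ℚ ℂ (s i)) ^ (l y : ℕ) = 0 ∧
    ∃ S : Set (σ → ℂ), Irr S ∧ (fun y => f y fun i => algebraMap ℚ ℂ (s i)) ∈ S ∧
      S ⊆ Fib U f (fun i => algebraMap ℚ ℂ (s i)) ∧
      ∃ a ∈ S, ∑ l, (∑ i, ξ i * c l i) * ∏ y, a y ^ (l y : ℕ) ≠ 0}

/-- **The relations at almost all rational points hold on the irreducible subsets of the fibre through the point.** -/
theorem compN {X σ : Type} [Fintype X] [DecidableEq X] [Nonempty X] [Fintype σ] [DecidableEq σ] {U : Set (X → ℂ)}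
    {f : σ → (X → ℂ) → ℂ} (hU : IsPreconnected U) (hUo : IsOpen U) (hne : U.Nonempty)
    (hf : ∀ i, AnalyticOnNhd ℂ (f i) U) (Lc : Set (X → ℂ)) (hLc : IsCompact Lc) (hLU : Lc ⊆ U) (δ : ℕ)
    (h : Type) [Fintype h] [DecidableEq h] (m : ℕ) (ξ : h → ℂ) (A ε : ℝ) (hε : 0 < ε) :
    ∃ (D : ℕ) (C T₀ : ℝ), 0 ≤ C ∧ 2 ≤ T₀ ∧ ∀ T : ℝ, T₀ ≤ T →
      Cov D ⌊C * T ^ ε⌋₊ ((fun (s : X → ℚ) i => algebraMap ℚ ℂ (s i)) '' ExcIN δ U f Lc m ξ A T) := by
  classical
  obtain ⟨L, _, _, _, F, hz, hfrac⟩ := exists_fieldM hU hUo hne hf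
  let Λ := σ → Fin (δ + 1)
  let lm : Λ → MvPolynomial σ (MvPolynomial X ℂ) := fun l => ∏ y, MvPolynomial.X y ^ (l y : ℕ)
  have hlm : ∀ l x (a : σ → ℂ), evX x a (lm l) = ∏ y, a y ^ (l y : ℕ) := by
    intro l x a
    rw [evX, MvPolynomial.eval₂_prod]
    refine Finset.prod_congr rfl fun y _ => ?_
    rw [MvPolynomial.eval₂_pow, MvPolynomial.eval₂_X]
  obtain ⟨I, _, _, ι, D, q, hind, hD, hq, hq0⟩ := exists_char F hfrac lm
  have hid := fun x a ha P => ident F hz lm ι D q hq0 x a ha P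
  set e := q.natDegree with he
  have han : ∀ i, ∀ t ∈ Lc, AnalyticAt ℂ ((fun (i : I) t => f (ι i) t) i) t := fun i t ht => hf _ t (hLU ht)
  have hloc : ∀ t ∈ Lc, LocIndM (fun (i : I) t => f (ι i) t) t := fun t ht => locIndM_of hU hf F hz ι hind t (hLU ht)
  -- the counts
  let 𝒢 : Option (Fin (e + 1)) → MvPolynomial I (MvPolynomial Λ (MvPolynomial X ℂ)) := fun o =>
    o.elim (MvPolynomial.map MvPolynomial.C D) (fun k => sw (q.coeff k))
  choose DD C T₀ hC hT₀ Hc using fun o => countN (𝒢 o) (fun (i : I) t => f (ι i) t) Lc hLc han hloc h m ξ A ε hε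
  obtain ⟨α₀, hα₀⟩ := MvPolynomial.ne_zero_iff.1 hD
  refine ⟨(∑ o, DD o) + (D.coeff α₀).totalDegree, (Fintype.card (Option (Fin (e + 1)))) * (∑ o, C o) + 1,
    2 + ∑ o, T₀ o, ?_, ?_, ?_⟩
  · have : 0 ≤ ∑ o, C o := Finset.sum_nonneg fun o _ => hC o
    positivity
  · have : 0 ≤ ∑ o, T₀ o := Finset.sum_nonneg fun o _ => by linarith [hT₀ o]
    linarith
  intro T hT
  have hTT : ∀ o, T₀ o ≤ T := by
    intro o
    have h1 := Finset.single_le_sum (f := T₀) (fun o _ => by linarith [hT₀ o]) (Finset.mem_univ o)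
    linarith
  have hT1 : 1 ≤ T := by linarith [hT₀ none, hTT none]
  have hTp : 0 < T := by linarith
  have h6 : (1 : ℝ) ≤ T ^ ε := Real.one_le_rpow hT1 hε.le
  set Z : Set (X → ℂ) := {t | MvPolynomial.eval t (D.coeff α₀) = 0} with hZ
  have hZcov : Cov (D.coeff α₀).totalDegree 1 Z := by
    refine ⟨{D.coeff α₀}, by simp, ?_, ?_⟩
    · intro P hP
      rw [Finset.mem_singleton] at hP
      subst hP
      exact ⟨hα₀, le_rfl⟩
    · intro t ht
      exact ⟨D.coeff α₀, Finset.mem_singleton_self _, ht⟩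
  let Bd : Option (Fin (e + 1)) → Set (X → ℂ) := fun o => (fun (s : X → ℚ) i => algebraMap ℚ ℂ (s i)) ''
    BadGN (𝒢 o) (fun (i : I) t => f (ι i) t) Lc m ξ A T
  have hBd : ∀ o, Cov (∑ o, DD o) ⌊(∑ o, C o) * T ^ ε⌋₊ (Bd o) := by
    intro o
    refine (Hc o T (hTT o)).mono (Finset.single_le_sum (f := DD) (fun _ _ => Nat.zero_le _)
      (Finset.mem_univ o)) (Nat.floor_le_floor ?_) (Set.Subset.refl _)
    exact mul_le_mul_of_nonneg_right (Finset.single_le_sum (f := C) (fun o _ => hC o) (Finset.mem_univ o))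
      (by positivity)
  have hun := Cov.biUnion (Finset.univ : Finset (Option (Fin (e + 1)))) Bd (fun o _ => hBd o)
  have hsub : (fun (s : X → ℚ) i => algebraMap ℚ ℂ (s i)) '' ExcIN δ U f Lc m ξ A T ⊆ (⋃ o ∈ Finset.univ, Bd o) ∪ Z := by
    rintro _ ⟨s, ⟨hs1, hs2, FF, hFF, hFm, c, hc1, hc2, S, hS, hfS, hSF, a, haS, ha⟩, rfl⟩
    set t : X → ℂ := fun i => algebraMap ℚ ℂ (s i) with ht
    set P : Λ → ℂ := fun l => ∑ i, ξ i * c l i with hP
    by_contra hcon
    rw [Set.mem_union, not_or] at hcon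
    obtain ⟨hcon1, hcon2⟩ := hcon
    have hno : ∀ o, spc (𝒢 o) t P ≠ 0 → MvPolynomial.eval (fun i => f (ι i) t) (spc (𝒢 o) t P) ≠ 0 := by
      intro o h1 h2
      exact hcon1 (Set.mem_iUnion₂.2 ⟨o, Finset.mem_univ _, s, ⟨hs1, hs2, FF, hFF, hFm, c, hc1, h1, h2⟩, rfl⟩)
    -- the polynomials on the space
    set Dx : MvPolynomial I ℂ := MvPolynomial.map (MvPolynomial.eval t) D with hDx
    have hDxs : spc (𝒢 none) t P = Dx := by
      change MvPolynomial.map (MvPolynomial.eval₂Hom (MvPolynomial.eval t) P) (MvPolynomial.map MvPolynomial.C D) = _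
      rw [MvPolynomial.map_map]
      congr 1
      refine RingHom.ext fun y => ?_
      simp
    have hDx0 : Dx ≠ 0 := by
      intro h0
      apply hcon2
      have h1 := congrArg (MvPolynomial.coeff α₀) h0
      rw [hDx, MvPolynomial.coeff_map, MvPolynomial.coeff_zero] at h1
      exact h1
    have hDxe : ∀ a : σ → ℂ, MvPolynomial.eval a (MvPolynomial.rename ι Dx) = evX t (a ∘ ι) D := by
      intro a
      rw [MvPolynomial.eval_rename, hDx, MvPolynomial.eval_map]
      rfl
    set Rp : MvPolynomial σ ℂ := ∑ l, MvPolynomial.C (P l) * ∏ y, MvPolynomial.X y ^ (l y : ℕ) with hRp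
    have hRpe : ∀ a : σ → ℂ, MvPolynomial.eval a Rp = ∑ l, P l * ∏ y, a y ^ (l y : ℕ) := by
      intro a
      rw [hRp, map_sum]
      refine Finset.sum_congr rfl fun l _ => ?_
      rw [map_mul, MvPolynomial.eval_C, map_prod]
      congr 1
      refine Finset.prod_congr rfl fun y _ => ?_
      rw [map_pow, MvPolynomial.eval_X]
    set Tp : MvPolynomial σ ℂ := MvPolynomial.rename ι Dx * Rp with hTpd
    have hTpe : ∀ a : σ → ℂ, MvPolynomial.eval a Tp = evX t (a ∘ ι) D * ∑ l, P l * evX t a (lm l) := by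
      intro a
      rw [hTpd, map_mul, hDxe, hRpe]
      congr 1
      refine Finset.sum_congr rfl fun l _ => ?_
      rw [hlm]
    set 𝓡 : ℕ → MvPolynomial I ℂ := fun k => spc (sw (q.coeff k)) t P with h𝓡
    have hex : ∃ k, 𝓡 k ≠ 0 := by
      refine ⟨e, ?_⟩
      have h1 : q.coeff e = 1 := hq
      simp only [h𝓡, h1, map_one, spc]
      exact one_ne_zero
    classical
    set k := Nat.find hex with hk
    have hk0 : 𝓡 k ≠ 0 := Nat.find_spec hex
    have hkmin : ∀ j < k, 𝓡 j = 0 := by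
      intro j hj
      by_contra h0
      exact Nat.find_min hex hj h0
    have hke : k ≤ e := by
      apply Nat.find_min' hex
      have h1 : q.coeff e = 1 := hq
      simp only [h𝓡, h1, map_one, spc]
      exact one_ne_zero
    have hkv : MvPolynomial.eval (fun i => f (ι i) t) (𝓡 k) ≠ 0 :=
      hno (some ⟨k, Nat.lt_succ_of_le hke⟩) hk0
    set Sp : MvPolynomial σ ℂ := ∑ j ∈ Finset.range (e + 1 - k), MvPolynomial.rename ι (𝓡 (j + k)) * Tp ^ j with hSp
    have hprod : ∀ b ∈ S, MvPolynomial.eval b (Tp ^ k) * MvPolynomial.eval b Sp = 0 := by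
      intro b hb
      have h1 := hid t b (hSF hb) P
      have h4 : ∀ g : ℕ → ℂ, (∀ j < k, g j = 0) →
          ∑ j ∈ Finset.range (e + 1), g j = ∑ j ∈ Finset.range (e + 1 - k), g (k + j) := by
        intro g hg
        have h2 : e + 1 = k + (e + 1 - k) := by omega
        conv_lhs => rw [h2, Finset.sum_range_add]
        rw [Finset.sum_eq_zero (fun j hj => hg j (Finset.mem_range.1 hj)), zero_add]
      rw [h4 _ (fun j hj => by
        have h3 := hkmin j hj
        simp only [h𝓡] at h3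
        rw [h3, map_zero, zero_mul])] at h1
      rw [← h1, map_pow, hSp, map_sum, Finset.mul_sum]
      refine Finset.sum_congr rfl fun j _ => ?_
      have h5 : MvPolynomial.eval b (MvPolynomial.rename ι (𝓡 (j + k)) * Tp ^ j) =
          MvPolynomial.eval (b ∘ ι) (𝓡 (j + k)) * MvPolynomial.eval b Tp ^ j := by
        rw [map_mul, map_pow, MvPolynomial.eval_rename]
      have h3 : spc (sw (q.coeff (k + j))) t P = 𝓡 (j + k) := by rw [add_comm j k]
      rw [h5, h3, hTpe, pow_add]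
      ring
    have hT0 : MvPolynomial.eval (fun y => f y t) Tp = 0 := by
      rw [hTpd, map_mul, hRpe]
      have h1 : ∑ l, P l * ∏ y, (fun y => f y t) y ^ (l y : ℕ) = 0 := hc2
      rw [h1, mul_zero]
    rcases hS _ _ hprod with h1 | h1
    · -- `T ^ k` vanishes
      have hkpos : k ≠ 0 := by
        intro h0
        have h2 := h1 _ hfS
        rw [h0, pow_zero, map_one] at h2
        exact one_ne_zero h2
      have h2 : ∀ b ∈ S, MvPolynomial.eval b (MvPolynomial.rename ι Dx) * MvPolynomial.eval b Rp = 0 := by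
        intro b hb
        have h3 := h1 b hb
        rw [map_pow] at h3
        have h4 := pow_eq_zero_iff hkpos |>.1 h3
        rw [hTpd, map_mul] at h4
        exact h4
      rcases hS _ _ h2 with h3 | h3
      · have h4 := h3 _ hfS
        rw [MvPolynomial.eval_rename] at h4
        refine hno none ?_ ?_
        · rw [hDxs]
          exact hDx0
        · rw [hDxs]
          exact h4
      · apply ha
        have h4 := h3 a haS
        rw [hRpe] at h4
        exact h4
    · have h2 := h1 _ hfS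
      rw [hSp, map_sum] at h2
      have h3 : e + 1 - k = (e - k) + 1 := by omega
      rw [h3, Finset.sum_range_succ'] at h2
      rw [Finset.sum_eq_zero, zero_add] at h2
      · rw [map_mul, pow_zero, map_one, mul_one, MvPolynomial.eval_rename, zero_add] at h2
        exact hkv h2
      · intro j _
        rw [map_mul, map_pow, hT0]
        simp
  have h1 := (hun.mono (Nat.le_add_right _ (D.coeff α₀).totalDegree) le_rfl (Set.Subset.refl _)).union
    (hZcov.mono (Nat.le_add_left _ (∑ o, DD o)) le_rfl (Set.Subset.refl _))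
  refine h1.mono le_rfl ?_ hsub
  rw [Finset.card_univ]
  have hCs : 0 ≤ ∑ o, C o := Finset.sum_nonneg fun o _ => hC o
  apply Nat.le_floor
  push_cast
  have h8 : ((⌊(∑ o, C o) * T ^ ε⌋₊ : ℕ) : ℝ) ≤ (∑ o, C o) * T ^ ε := Nat.floor_le (by positivity)
  have h9 : (0 : ℝ) ≤ (Fintype.card (Option (Fin (e + 1))) : ℝ) := Nat.cast_nonneg _
  calc (Fintype.card (Option (Fin (e + 1))) : ℝ) * (⌊(∑ o, C o) * T ^ ε⌋₊ : ℝ) + 1 ≤
        (Fintype.card (Option (Fin (e + 1))) : ℝ) * ((∑ o, C o) * T ^ ε) + T ^ ε :=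
        add_le_add (mul_le_mul_of_nonneg_left h8 h9) h6
    _ = _ := by ring

end Pool.Agent.V8H73.RN
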