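import Pool.Agent.V8H73.RN.Geo

/-!
# The product of the fibres at the conjugates lies in the fibre over the rational parameters
-/

set_option autoImplicit false
set_option linter.unusedSectionVars false

open Polynomial Filter Topology

namespace Pool.Agent.V8H73.RN

open Pool.Agent.X255.NP
open Pool.Agent.N207.GS (Irr Fib)
open Pool.Agent.N207.CF (prodU prodF prodU_conn prodU_open prodU_ne prodF_an)
open Pool.Agent.Y890.MV Matrix

variable {g : ℕ} {Y σ : Type}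

/-- charts for the roots -/
structure Ch (W1 N1 : Set (Fin g → ℂ)) (ζ : (Fin g → ℂ) → Fin g → ℂ) : Prop where
  oW : IsOpen W1
  oN : IsOpen N1
  an : ∀ i, AnalyticOnNhd ℂ (fun a => ζ a i) W1
  inv : ∀ a ∈ W1, ζ a ∈ N1 ∧ co (ζ a) = a
  inv' : ∀ z ∈ N1, co z ∈ W1 ∧ ζ (co z) = z ∧ Function.Injective z

theorem exists_ch (z0 : Fin g → ℂ) (hinj : Function.Injective z0) : ∃ (W1 N1 : Set (Fin g → ℂ))
    (ζ : (Fin g → ℂ) → Fin g → ℂ), Ch W1 N1 ζ ∧ z0 ∈ N1 := by
  obtain ⟨W, N, ζ, h1, -, -, h4, h5, -, h7, h8, h9⟩ := exists_chart Set.univ isOpen_univ z0 (Set.mem_univ _) hinj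
  exact ⟨W, N, ζ, ⟨h1, h4, h7, h8, h9⟩, h5⟩

/-- the point of the parameters -/
def psi (ζ : (Fin g → ℂ) → Fin g → ℂ) (x : Fin g ⊕ (Y × Fin g) → ℂ) : Fin g → Option Y → ℂ :=
  pts (ζ fun i => x (Sum.inl i)) (fun q => x (Sum.inr q))

/-- the functions of the parameters -/
def GG (S : Finset (Fin g)) (f : σ → (Option Y → ℂ) → ℂ) (ζ : (Fin g → ℂ) → Fin g → ℂ) (q : {i // i ∈ S} × σ)
    (x : Fin g ⊕ (Y × Fin g) → ℂ) : ℂ := f q.2 (psi ζ x q.1)

variable [Fintype Y] [DecidableEq Y] [Fintype σ] [DecidableEq σ]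

theorem psi_an {W1 N1 : Set (Fin g → ℂ)} {ζ : (Fin g → ℂ) → Fin g → ℂ} (hch : Ch W1 N1 ζ)
    {x : Fin g ⊕ (Y × Fin g) → ℂ} (hx : (fun i => x (Sum.inl i)) ∈ W1) (i : Fin g) :
    AnalyticAt ℂ (fun x : Fin g ⊕ (Y × Fin g) → ℂ => psi ζ x i) x := by
  have hproj : ∀ j, AnalyticAt ℂ (fun x : Fin g ⊕ (Y × Fin g) → ℂ => x j) x := fun j =>
    (ContinuousLinearMap.proj (R := ℂ) (φ := fun _ : Fin g ⊕ (Y × Fin g) => ℂ) j).analyticAt x
  have hl : AnalyticAt ℂ (fun x : Fin g ⊕ (Y × Fin g) → ℂ => fun i => x (Sum.inl i)) x := by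
    rw [analyticAt_pi_iff]
    exact fun j => hproj _
  have hz : AnalyticAt ℂ (fun x : Fin g ⊕ (Y × Fin g) → ℂ => ζ (fun i => x (Sum.inl i)) i) x :=
    AnalyticAt.comp (g := fun a => ζ a i) (f := fun x : Fin g ⊕ (Y × Fin g) → ℂ => fun i => x (Sum.inl i))
      (hch.an i _ hx) hl
  rw [analyticAt_pi_iff]
  rintro (_ | y)
  · exact hz
  · change AnalyticAt ℂ (fun x : Fin g ⊕ (Y × Fin g) → ℂ =>
      ∑ l, x (Sum.inr (y, l)) * ζ (fun i => x (Sum.inl i)) i ^ (l : ℕ)) x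
    refine Finset.analyticAt_fun_sum _ fun l _ => ?_
    exact (hproj _).mul (hz.pow _)

theorem GG_an {V : Set (Option Y → ℂ)} {f : σ → (Option Y → ℂ) → ℂ} (hf : ∀ s, AnalyticOnNhd ℂ (f s) V)
    {W1 N1 : Set (Fin g → ℂ)} {ζ : (Fin g → ℂ) → Fin g → ℂ} (hch : Ch W1 N1 ζ) (S : Finset (Fin g))
    {B : Set (Fin g ⊕ (Y × Fin g) → ℂ)} (hB : ∀ x ∈ B, (fun i => x (Sum.inl i)) ∈ W1 ∧ ∀ i ∈ S, psi ζ x i ∈ V)
    (q : {i // i ∈ S} × σ) : AnalyticOnNhd ℂ (GG S f ζ q) B := by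
  intro x hx
  exact AnalyticAt.comp (g := f q.2) (f := fun x => psi ζ x q.1) (hf q.2 _ ((hB x hx).2 q.1 q.1.2))
    (psi_an hch (hB x hx).1 q.1)

theorem ext_cont (S : Finset (Fin g)) (u1 : Fin g → Option Y → ℂ) (i : Fin g) (o : Option Y) :
    Continuous fun u : {i // i ∈ S} × Option Y → ℂ => ext S u1 u i o := by
  unfold ext
  split_ifs
  · exact continuous_apply _
  · exact continuous_const

theorem xx_cont (S : Finset (Fin g)) (u1 : Fin g → Option Y → ℂ) (hinj : Function.Injective (fz u1)) :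
    ContinuousAt (fun u : {i // i ∈ S} × Option Y → ℂ => xx (ext S u1 u)) (fun q => u1 q.1 q.2) := by
  have hfz : Continuous fun u : {i // i ∈ S} × Option Y → ℂ => fz (ext S u1 u) :=
    continuous_pi fun i => ext_cont S u1 i none
  rw [continuousAt_pi]
  rintro (j | ⟨y, l⟩)
  · exact ((continuous_apply j).comp (co_cont.comp hfz)).continuousAt
  · change ContinuousAt (fun u : {i // i ∈ S} × Option Y → ℂ => (vandermonde (fz (ext S u1 u))).det⁻¹ *
      ∑ i, (vandermonde (fz (ext S u1 u))).adjugate l i * ext S u1 u i (some y)) _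
    have hM : Continuous fun u : {i // i ∈ S} × Option Y → ℂ => vandermonde (fz (ext S u1 u)) := by
      refine continuous_matrix fun i j => ?_
      simp only [vandermonde_apply]
      exact ((continuous_apply i).comp hfz).pow _
    refine ContinuousAt.mul ?_ ?_
    · refine ContinuousAt.inv₀ hM.matrix_det.continuousAt ?_
      rw [ext_self]
      exact det_ne hinj
    · refine Continuous.continuousAt ?_
      refine continuous_finsetSum _ fun i _ => ?_
      refine Continuous.mul ?_ (ext_cont S u1 i _)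
      exact (continuous_apply_apply l i).comp hM.matrix_adjugate

/-- **The product of the fibres lies in the fibre.** -/
theorem fib_incl (S : Finset (Fin g)) {V : Set (Option Y → ℂ)} (hV : IsPreconnected V)
    {f : σ → (Option Y → ℂ) → ℂ} (hf : ∀ s, AnalyticOnNhd ℂ (f s) V) {W1 N1 : Set (Fin g → ℂ)}
    {ζ : (Fin g → ℂ) → Fin g → ℂ} (hch : Ch W1 N1 ζ) {B : Set (Fin g ⊕ (Y × Fin g) → ℂ)} (hBo : IsOpen B)
    (hB : ∀ x ∈ B, (fun i => x (Sum.inl i)) ∈ W1 ∧ ∀ i ∈ S, psi ζ x i ∈ V) {x1 : Fin g ⊕ (Y × Fin g) → ℂ}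
    (hx1 : x1 ∈ B) (w : {i // i ∈ S} → σ → ℂ) (hw : ∀ e : {i // i ∈ S}, w e ∈ Fib V f (psi ζ x1 e)) :
    (fun q : {i // i ∈ S} × σ => w q.1 q.2) ∈ Fib B (GG S f ζ) x1 := by
  classical
  set u1 : Fin g → Option Y → ℂ := psi ζ x1 with hu1
  set z1 : Fin g → ℂ := ζ fun i => x1 (Sum.inl i) with hz1
  have hz1N : z1 ∈ N1 := (hch.inv _ (hB x1 hx1).1).1
  have hz1c : co z1 = fun i => x1 (Sum.inl i) := (hch.inv _ (hB x1 hx1).1).2
  have hz1i : Function.Injective z1 := (hch.inv' z1 hz1N).2.2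
  have hfz1 : fz u1 = z1 := rfl
  have hxx1 : xx u1 = x1 := by
    rw [hu1, psi, xx_pts _ hz1i, hz1c]
    funext j
    rcases j with j | j <;> rfl
  intro p hp
  obtain ⟨N, hN⟩ := clear2 (dP S u1) (nP S u1) (fun u => xx (ext S u1 u))
    {u | Function.Injective (fz (ext S u1 u))} (fun u hu j => nP_eval S u1 u hu j) p
  obtain ⟨p', hp'⟩ := hN N le_rfl
  let uE : {i // i ∈ S} × Option Y → ℂ := fun q => u1 q.1 q.2
  have hextE : ext S u1 uE = u1 := ext_self S u1
  have hfz : Continuous fun u : {i // i ∈ S} × Option Y → ℂ => fz (ext S u1 u) :=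
    continuous_pi fun i => ext_cont S u1 i none
  have hev1 : ∀ᶠ u in 𝓝 uE, fz (ext S u1 u) ∈ N1 := by
    refine hfz.continuousAt.eventually_mem (hch.oN.mem_nhds ?_)
    rw [hextE]
    exact hz1N
  have hev2 : ∀ᶠ u in 𝓝 uE, xx (ext S u1 u) ∈ B := by
    refine (xx_cont S u1 hz1i).eventually_mem (hBo.mem_nhds ?_)
    have h1 : xx (ext S u1 uE) = x1 := by rw [hextE, hxx1]
    exact h1 ▸ hx1
  have hgerm : ∀ᶠ u in 𝓝 uE, evM (prodF fun _ : {i // i ∈ S} => f) u p' = 0 := by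
    filter_upwards [hev1, hev2] with u h1 h2
    have hinj : Function.Injective (fz (ext S u1 u)) := (hch.inv' _ h1).2.2
    have h3 := hp _ h2
    have h4 := hp' u hinj (fun q => f q.2 fun o => u (q.1, o))
    have h5 : (fun q : {i // i ∈ S} × σ => GG S f ζ q (xx (ext S u1 u))) = fun q => f q.2 fun o => u (q.1, o) := by
      funext q
      have h6 : psi ζ (xx (ext S u1 u)) = ext S u1 u := by
        have h7 : (ζ fun i => xx (ext S u1 u) (Sum.inl i)) = fz (ext S u1 u) := (hch.inv' _ h1).2.1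
        rw [psi, h7]
        exact pts_xx _ hinj
      rw [GG, h6, ext_apply]
    have h6 : evM (GG S f ζ) (xx (ext S u1 u)) p = p.eval₂ (MvPolynomial.eval (xx (ext S u1 u)))
        (fun q => f q.2 fun o => u (q.1, o)) := by
      rw [evM, h5]
    have h7 : evM (prodF fun _ : {i // i ∈ S} => f) u p' = p'.eval₂ (MvPolynomial.eval u)
        (fun q => f q.2 fun o => u (q.1, o)) := rfl
    rw [h7, h4, ← h6, h3, mul_zero]
  have hUE : uE ∈ prodU fun _ : {i // i ∈ S} => V := fun e => (hB x1 hx1).2 e e.2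
  have hall := (evM_an (prodF_an (E := {i // i ∈ S}) (f := fun _ => f) (U := fun _ => V) fun _ s => hf s)
    p').eqOn_zero_of_preconnected_of_eventuallyEq_zero (prodU_conn fun _ => hV) hUE hgerm
  have hfib := Pool.Agent.N27.CF.fib {i // i ∈ S} (Option Y) σ (fun _ => V) (fun _ => f)
    (fun e => u1 e) w (fun e => (hB x1 hx1).2 e e.2) (fun e p hp => hw e p hp) p' (fun z hz => hall hz)
  have h8 := hp' uE (by
    change Function.Injective (fz (ext S u1 uE))
    rw [hextE]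
    exact hz1i) (fun q => w q.1 q.2)
  have h9 : p'.eval₂ (MvPolynomial.eval uE) (fun q => w q.1 q.2) = 0 := hfib
  rw [h9, hextE, hxx1] at h8
  have h10 : MvPolynomial.eval uE (dP S u1) ≠ 0 := by
    rw [dP_eval, hextE]
    exact det_ne hz1i
  exact (mul_eq_zero.1 h8.symm).resolve_left (pow_ne_zero _ h10)

end Pool.Agent.V8H73.RN
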