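import Pool.Agent.V8H73.RN.Comp
import Pool.Agent.X255.NP.Sym
import Pool.Agent.N27.CF.FIB
import Pool.Agent.N803.CF.Irr
import Pool.Agent.N207.CF.Prod

/-!
# The coordinates of the conjugates of a point of a number field with a generator as functions of rational numbers
-/

set_option autoImplicit false
set_option linter.unusedSectionVars false

open Polynomial Filter Topology

namespace Pool.Agent.V8H73.RN

open Pool.Agent.X255.NP
open Pool.Agent.N207.GS (Irr Fib)
open Pool.Agent.N207.CF (prodU prodF prodU_conn prodU_open prodU_ne prodF_an)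
open Pool.Agent.Y890.MV Matrix

variable {g : ℕ} {Y σ : Type}

/-- the point `(z_i, (∑_l β_(y,l) z_i ^ l)_y)` -/
def pts (z : Fin g → ℂ) (β : Y × Fin g → ℂ) (i : Fin g) : Option Y → ℂ :=
  fun o => o.elim (z i) (fun y => ∑ l, β (y, l) * z i ^ (l : ℕ))

/-- the first coordinates -/
def fz (u : Fin g → Option Y → ℂ) : Fin g → ℂ := fun i => u i none

/-- the coefficients as functions of the points -/
noncomputable def xx (u : Fin g → Option Y → ℂ) : Fin g ⊕ (Y × Fin g) → ℂ :=
  Sum.elim (co (fz u)) (fun q => (vandermonde (fz u)).det⁻¹ * ∑ i, (vandermonde (fz u)).adjugate q.2 i * u i (some q.1))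

theorem det_ne {z : Fin g → ℂ} (h : Function.Injective z) : (vandermonde z).det ≠ 0 := det_vandermonde_ne_zero_iff.2 h

theorem fz_pts (z : Fin g → ℂ) (β : Y × Fin g → ℂ) : fz (pts z β) = z := rfl

theorem pts_xx (u : Fin g → Option Y → ℂ) (hu : Function.Injective (fz u)) :
    pts (fz u) (fun q => xx u (Sum.inr q)) = u := by
  funext i o
  rcases o with _ | y
  · rfl
  · change ∑ l, xx u (Sum.inr (y, l)) * fz u i ^ (l : ℕ) = u i (some y)
    set M := vandermonde (fz u) with hM
    have hd : M.det ≠ 0 := det_ne hu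
    have h1 : ∀ l, xx u (Sum.inr (y, l)) = M.det⁻¹ * (M.adjugate.mulVec fun i => u i (some y)) l := fun l => rfl
    have h2 : (M.mulVec (M.adjugate.mulVec fun i => u i (some y))) i = M.det * u i (some y) := by
      rw [mulVec_mulVec, mul_adjugate, smul_mulVec, one_mulVec]
      rfl
    have h3 : ∑ l, xx u (Sum.inr (y, l)) * fz u i ^ (l : ℕ) =
        M.det⁻¹ * (M.mulVec (M.adjugate.mulVec fun i => u i (some y))) i := by
      rw [mulVec, dotProduct, Finset.mul_sum]
      refine Finset.sum_congr rfl fun l _ => ?_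
      rw [h1, hM, vandermonde_apply]
      ring
    rw [h3, h2]
    field_simp

theorem xx_pts (z : Fin g → ℂ) (hz : Function.Injective z) (β : Y × Fin g → ℂ) :
    xx (pts z β) = Sum.elim (co z) β := by
  funext j
  rcases j with j | ⟨y, l⟩
  · rfl
  · change (vandermonde z).det⁻¹ * ∑ i, (vandermonde z).adjugate l i * (∑ m, β (y, m) * z i ^ (m : ℕ)) = β (y, l)
    set M := vandermonde z with hM
    have hd : M.det ≠ 0 := det_ne hz
    have h2 : (M.adjugate.mulVec (M.mulVec fun m => β (y, m))) l = M.det * β (y, l) := by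
      rw [mulVec_mulVec, adjugate_mul, smul_mulVec, one_mulVec]
      rfl
    have h3 : ∑ i, M.adjugate l i * (∑ m, β (y, m) * z i ^ (m : ℕ)) =
        (M.adjugate.mulVec (M.mulVec fun m => β (y, m))) l := by
      rw [mulVec, dotProduct]
      refine Finset.sum_congr rfl fun i _ => ?_
      congr 1
      rw [mulVec, dotProduct]
      refine Finset.sum_congr rfl fun m _ => ?_
      rw [hM, vandermonde_apply]
      ring
    rw [h3, h2]
    field_simp

/-- extension by constants -/
def ext (S : Finset (Fin g)) (u1 : Fin g → Option Y → ℂ) (u : {i // i ∈ S} × Option Y → ℂ) : Fin g → Option Y → ℂ :=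
  fun i o => if h : i ∈ S then u (⟨i, h⟩, o) else u1 i o

theorem ext_self (S : Finset (Fin g)) (u1 : Fin g → Option Y → ℂ) : ext S u1 (fun q => u1 q.1 q.2) = u1 := by
  funext i o
  unfold ext
  split_ifs <;> rfl

theorem ext_apply (S : Finset (Fin g)) (u1 : Fin g → Option Y → ℂ) (u : {i // i ∈ S} × Option Y → ℂ)
    (e : {i // i ∈ S}) : ext S u1 u e = fun o => u (e, o) := by
  funext o
  unfold ext
  rw [dif_pos e.2]

/-- the extension with polynomials -/
noncomputable def extP (S : Finset (Fin g)) (u1 : Fin g → Option Y → ℂ) (i : Fin g) (o : Option Y) :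
    MvPolynomial ({i // i ∈ S} × Option Y) ℂ :=
  if h : i ∈ S then MvPolynomial.X (⟨i, h⟩, o) else MvPolynomial.C (u1 i o)

theorem extP_eval (S : Finset (Fin g)) (u1 : Fin g → Option Y → ℂ) (u : {i // i ∈ S} × Option Y → ℂ) (i : Fin g)
    (o : Option Y) : MvPolynomial.eval u (extP S u1 i o) = ext S u1 u i o := by
  unfold extP ext
  split_ifs <;> simp

/-- the determinant as a polynomial -/
noncomputable def dP (S : Finset (Fin g)) (u1 : Fin g → Option Y → ℂ) : MvPolynomial ({i // i ∈ S} × Option Y) ℂ :=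
  (vandermonde fun i => extP S u1 i none).det

theorem vand_eval (S : Finset (Fin g)) (u1 : Fin g → Option Y → ℂ) (u : {i // i ∈ S} × Option Y → ℂ) :
    (MvPolynomial.eval u).mapMatrix (vandermonde fun i => extP S u1 i none) = vandermonde (fz (ext S u1 u)) := by
  ext i j
  rw [RingHom.mapMatrix_apply, map_apply, vandermonde_apply, vandermonde_apply, map_pow, extP_eval]
  rfl

theorem dP_eval (S : Finset (Fin g)) (u1 : Fin g → Option Y → ℂ) (u : {i // i ∈ S} × Option Y → ℂ) :
    MvPolynomial.eval u (dP S u1) = (vandermonde (fz (ext S u1 u))).det := by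
  rw [dP, RingHom.map_det, vand_eval]

/-- the numerators -/
noncomputable def nP (S : Finset (Fin g)) (u1 : Fin g → Option Y → ℂ) (j : Fin g ⊕ (Y × Fin g)) :
    MvPolynomial ({i // i ∈ S} × Option Y) ℂ :=
  Sum.elim (fun j => dP S u1 * MvPolynomial.aeval (fun i => extP S u1 i none) (coP j))
    (fun q => ∑ i, (vandermonde fun i => extP S u1 i none).adjugate q.2 i * extP S u1 i (some q.1)) j

theorem nP_eval (S : Finset (Fin g)) (u1 : Fin g → Option Y → ℂ) (u : {i // i ∈ S} × Option Y → ℂ)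
    (hu : Function.Injective (fz (ext S u1 u))) (j : Fin g ⊕ (Y × Fin g)) :
    MvPolynomial.eval u (dP S u1) * xx (ext S u1 u) j = MvPolynomial.eval u (nP S u1 j) := by
  have hd := det_ne hu
  rcases j with j | ⟨y, l⟩
  · simp only [nP, Sum.elim_inl, map_mul]
    congr 1
    have h1 : (MvPolynomial.eval u).comp ((MvPolynomial.aeval fun i => extP S u1 i none :
        MvPolynomial (Fin g) ℂ →ₐ[ℂ] MvPolynomial ({i // i ∈ S} × Option Y) ℂ) : MvPolynomial (Fin g) ℂ →+* _) =
        MvPolynomial.eval (fz (ext S u1 u)) := by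
      refine MvPolynomial.ringHom_ext (fun r => ?_) fun i => ?_
      · simp
      · simp only [RingHom.comp_apply, RingHom.coe_coe, MvPolynomial.aeval_X, extP_eval, MvPolynomial.eval_X]
        rfl
    have h2 := RingHom.congr_fun h1 (coP j)
    rw [coP_eval] at h2
    exact h2.symm
  · simp only [nP, Sum.elim_inr, map_sum, map_mul, extP_eval]
    have h1 : ∀ i, MvPolynomial.eval u ((vandermonde fun i => extP S u1 i none).adjugate l i) =
        (vandermonde (fz (ext S u1 u))).adjugate l i := by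
      intro i
      have h2 := congrFun (congrFun ((MvPolynomial.eval u).map_adjugate (vandermonde fun i => extP S u1 i none)) l) i
      rw [vand_eval, RingHom.mapMatrix_apply, map_apply] at h2
      exact h2
    simp only [h1, dP_eval]
    change _ * ((vandermonde (fz (ext S u1 u))).det⁻¹ * _) = _
    rw [← mul_assoc, mul_inv_cancel₀ hd, one_mul]

/-- clearing denominators -/
theorem clear {X Z : Type} (Δ : MvPolynomial Z ℂ) (num : X → MvPolynomial Z ℂ) (x : (Z → ℂ) → X → ℂ) (D : Set (Z → ℂ))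
    (hx : ∀ u ∈ D, ∀ j, MvPolynomial.eval u Δ * x u j = MvPolynomial.eval u (num j)) (P : MvPolynomial X ℂ) :
    ∃ N : ℕ, ∀ n, N ≤ n → ∃ P' : MvPolynomial Z ℂ, ∀ u ∈ D,
      MvPolynomial.eval u P' = MvPolynomial.eval u Δ ^ n * MvPolynomial.eval (x u) P := by
  induction P using MvPolynomial.induction_on with
  | C a =>
    refine ⟨0, fun n _ => ⟨Δ ^ n * MvPolynomial.C a, fun u _ => ?_⟩⟩
    simp
  | add p q hp hq =>
    obtain ⟨N1, h1⟩ := hp
    obtain ⟨N2, h2⟩ := hq
    refine ⟨max N1 N2, fun n hn => ?_⟩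
    obtain ⟨p', hp'⟩ := h1 n ((le_max_left _ _).trans hn)
    obtain ⟨q', hq'⟩ := h2 n ((le_max_right _ _).trans hn)
    refine ⟨p' + q', fun u hu => ?_⟩
    rw [map_add, hp' u hu, hq' u hu, map_add]
    ring
  | mul_X p j hp =>
    obtain ⟨N1, h1⟩ := hp
    refine ⟨N1 + 1, fun n hn => ?_⟩
    obtain ⟨p', hp'⟩ := h1 (n - 1) (by omega)
    refine ⟨p' * num j, fun u hu => ?_⟩
    have hn1 : n = (n - 1) + 1 := by omega
    rw [map_mul, hp' u hu, ← hx u hu j, map_mul, MvPolynomial.eval_X]
    conv_rhs => rw [hn1, pow_succ]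
    ring

theorem clear2 {X Z τ : Type} (Δ : MvPolynomial Z ℂ) (num : X → MvPolynomial Z ℂ) (x : (Z → ℂ) → X → ℂ)
    (D : Set (Z → ℂ)) (hx : ∀ u ∈ D, ∀ j, MvPolynomial.eval u Δ * x u j = MvPolynomial.eval u (num j))
    (P : MvPolynomial τ (MvPolynomial X ℂ)) :
    ∃ N : ℕ, ∀ n, N ≤ n → ∃ P' : MvPolynomial τ (MvPolynomial Z ℂ), ∀ u ∈ D, ∀ w : τ → ℂ,
      P'.eval₂ (MvPolynomial.eval u) w = MvPolynomial.eval u Δ ^ n * P.eval₂ (MvPolynomial.eval (x u)) w := by
  induction P using MvPolynomial.induction_on with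
  | C a =>
    obtain ⟨N, hN⟩ := clear Δ num x D hx a
    refine ⟨N, fun n hn => ?_⟩
    obtain ⟨a', ha'⟩ := hN n hn
    refine ⟨MvPolynomial.C a', fun u hu w => ?_⟩
    rw [MvPolynomial.eval₂_C, MvPolynomial.eval₂_C, ha' u hu]
  | add p q hp hq =>
    obtain ⟨N1, h1⟩ := hp
    obtain ⟨N2, h2⟩ := hq
    refine ⟨max N1 N2, fun n hn => ?_⟩
    obtain ⟨p', hp'⟩ := h1 n ((le_max_left _ _).trans hn)
    obtain ⟨q', hq'⟩ := h2 n ((le_max_right _ _).trans hn)
    refine ⟨p' + q', fun u hu w => ?_⟩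
    rw [MvPolynomial.eval₂_add, hp' u hu, hq' u hu, MvPolynomial.eval₂_add]
    ring
  | mul_X p j hp =>
    obtain ⟨N1, h1⟩ := hp
    refine ⟨N1, fun n hn => ?_⟩
    obtain ⟨p', hp'⟩ := h1 n hn
    refine ⟨p' * MvPolynomial.X j, fun u hu w => ?_⟩
    rw [MvPolynomial.eval₂_mul, MvPolynomial.eval₂_mul, hp' u hu, MvPolynomial.eval₂_X, MvPolynomial.eval₂_X]
    ring

end Pool.Agent.V8H73.RN
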