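import Pool.Agent.V8H73.RN.App
import Pool.Agent.N207.AX.Few

/-!
# Points over almost all number fields: independent functions
-/

set_option autoImplicit false
set_option linter.unusedSectionVars false

open Polynomial Filter Topology NumberField

namespace Pool.Agent.V8H73.RN

open Pool.Agent.X255.NP Pool.Agent.X255.RH

variable {g : ℕ} {Y σ : Type} [Fintype Y] [DecidableEq Y] [Fintype σ] [DecidableEq σ]

/-- the roots over which the point is in `K` -/
noncomputable def rtI (K : Set (Y → ℂ)) (n : Jx g Y → ℤ) : Finset ℂ := by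
  classical exact (pol (av n)).roots.toFinset.filter fun x => ptY x (betaC n) ∈ K

/-- The numbers `x q` satisfy no nonzero relation of degree at most `k` in each of them with coefficients
`∑_{b < k} ξ_b c_b`, the `c_b` integers of a number field of degree at most `k` all of whose conjugates are at most
`T ^ k`. -/
def NoRel {Q : Type} (ξ : ℕ → ℂ) (k : ℕ) (T : ℝ) (x : Q → ℂ) : Prop :=
  ∀ (F : Type) [Field F] [NumberField F], Module.finrank ℚ F ≤ k → ∀ (io : F →+* ℂ) (R : MvPolynomial Q ℂ),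
    (∀ y, R.degreeOf y ≤ k) →
    (∀ m, ∃ c : Fin k → 𝓞 F, (∀ b (φ : F →+* ℂ), ‖φ (c b : F)‖ ≤ T ^ k) ∧ R.coeff m = ∑ b : Fin k, ξ b * io (c b : F)) →
    MvPolynomial.eval x R = 0 → R = 0

open scoped Classical in
/-- **Independent functions at almost all points over almost all number fields.** -/
theorem main_ind (hg : 0 < g) {U : Set (Y → ℂ)} (hU : IsPreconnected U) (hUo : IsOpen U)
    {f : σ → (Y → ℂ) → ℂ} (hf : ∀ s, AnalyticOnNhd ℂ (f s) U) (h : Pool.Agent.N207.AX.Ind U f)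
    (K : ℕ → Set (Y → ℂ)) (hK : ∀ k, IsClosed (K k) ∧ K k ⊆ U) (ξ : ℕ → ℂ) :
    ∃ ω : ℕ → ℕ, Tendsto ω atTop atTop ∧ Monotone ω ∧ ∀ T : ℕ,
      ω T * ((box g Y T).filter fun n => ¬ (av n (Fin.last g) ≠ 0 ∧ (pol (av n)).Separable ∧ dv n ≠ 0 ∧
        NoRel ξ (ω T) T fun q : {x // x ∈ rtI (K (ω T)) n} × σ => f q.2 (ptY q.1 (betaC n)))).card ≤
          (box g Y T).card := by
  obtain ⟨ω, h1, h2, h3⟩ := main_P (g := g) hg hU hUo hf (W := fun _ => Set.univ)
    (fun x _ w _ => ⟨Set.univ, Pool.Agent.N207.AX.irr_univ, trivial, trivial, Pool.Agent.N207.AX.fib_univ h x⟩)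
    K hK ξ
  refine ⟨ω, h1, h2, fun T => le_trans (Nat.mul_le_mul_left _ (Finset.card_le_card fun n hn => ?_)) (h3 T)⟩
  rw [Finset.mem_filter] at hn ⊢
  refine ⟨hn.1, fun hno => hn.2 ?_⟩
  obtain ⟨k1, k2, k3, k4⟩ := hno
  refine ⟨k1, k2, k3, ?_⟩
  intro F _ _ hF io R hR1 hR2 hR3
  have h5 := k4 F hF io (rtI (K (ω T)) n) (fun x => by
    unfold rtI
    rw [Finset.mem_filter, Multiset.mem_toFinset, mem_roots k2.ne_zero]
    exact Iff.rfl) R hR1 hR2 hR3
  refine MvPolynomial.funext fun a => ?_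
  have h6 := h5 (fun e s => a (e, s)) fun _ => trivial
  rw [map_zero, ← h6]

end Pool.Agent.V8H73.RN
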