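import Pool.Agent.V8H73.RN.Fibre
import Pool.Agent.X255.RH.Main

/-!
# The exceptional integral vectors near a given position of the roots and of the coefficients
-/

set_option autoImplicit false
set_option linter.unusedSectionVars false

open Polynomial Filter Topology NumberField

namespace Pool.Agent.V8H73.RN

open Pool.Agent.X255.NP Pool.Agent.X255.RH
open Pool.Agent.N207.GS (Irr Fib)
open Pool.Agent.Y890.MV Matrix
open Pool.Agent.Y124 (Cov)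

variable {g : ℕ} {Y σ : Type}

/-- the indices of the integral vectors: the coefficients of the polynomial, the denominator, the numerators -/
abbrev Jx (g : ℕ) (Y : Type) : Type := Fin (g + 1) ⊕ Option (Y × Fin g)

/-- the polynomial -/
def av (n : Jx g Y → ℤ) : Fin (g + 1) → ℤ := fun i => n (Sum.inl i)

/-- the denominator -/
def dv (n : Jx g Y → ℤ) : ℤ := n (Sum.inr none)

/-- the numerators -/
def bv (n : Jx g Y → ℤ) (q : Y × Fin g) : ℤ := n (Sum.inr (some q))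

/-- the rational point -/
def quoB (n : Jx g Y → ℤ) : Fin g ⊕ (Y × Fin g) → ℚ := Sum.elim (quo (av n)) (fun q => (bv n q : ℚ) / (dv n : ℚ))

/-- the rational point as a complex point -/
noncomputable def qC (n : Jx g Y → ℤ) : Fin g ⊕ (Y × Fin g) → ℂ := fun j => algebraMap ℚ ℂ (quoB n j)

/-- the coefficients of the coordinates of the point -/
noncomputable def betaC (n : Jx g Y → ℤ) : Y × Fin g → ℂ := fun q => (bv n q : ℂ) / (dv n : ℂ)

theorem qC_eq {n : Jx g Y → ℤ} {z : Fin g → ℂ} (hz : IsRoots (av n) z) : qC n = Sum.elim (co z) (betaC n) := by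
  funext j
  rcases j with j | q
  · exact congrFun hz.quo_eq j
  · simp [qC, quoB, betaC]

variable [Fintype Y] [DecidableEq Y] [Fintype σ] [DecidableEq σ]

/-- all relations between the values of the functions at the points `u e` hold on the product of the sets `W (u e)` -/
def Rl (f : σ → (Option Y → ℂ) → ℂ) (W : (Option Y → ℂ) → Set (σ → ℂ)) (ξ : ℕ → ℂ) (k : ℕ) (T : ℝ) {E : Type}
    [Fintype E] [DecidableEq E] (u : E → Option Y → ℂ) : Prop :=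
  ∀ (F : Type) [Field F] [NumberField F], Module.finrank ℚ F ≤ k → ∀ (io : F →+* ℂ)
    (c : (E × σ → Fin (k + 1)) → Fin k → 𝓞 F), (∀ l b (φ : F →+* ℂ), ‖φ (c l b : F)‖ ≤ T ^ k) →
    ∑ l, (∑ b : Fin k, ξ b * io (c l b : F)) * ∏ q, f q.2 (u q.1) ^ (l q : ℕ) = 0 →
    ∀ w : E → σ → ℂ, (∀ e, w e ∈ W (u e)) →
      ∑ l, (∑ b : Fin k, ξ b * io (c l b : F)) * ∏ q : E × σ, w q.1 q.2 ^ (l q : ℕ) = 0

/-- the exceptional vectors -/
def ExcL (f : σ → (Option Y → ℂ) → ℂ) (W : (Option Y → ℂ) → Set (σ → ℂ)) (S : Finset (Fin g)) (ξ : ℕ → ℂ) (k : ℕ)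
    (𝒩 : Set ((Fin g → ℂ) × (Y × Fin g → ℂ))) (T : ℝ) : Set (Jx g Y → ℤ) :=
  {n | (∀ j, |(n j : ℝ)| ≤ T) ∧ dv n ≠ 0 ∧ ∃ z, (z, betaC n) ∈ 𝒩 ∧ IsRoots (av n) z ∧
    ¬ Rl f W ξ k T (fun e : {i // i ∈ S} => pts z (betaC n) e)}

/-- the pieces of the fibres -/
def Pieces (V : Set (Option Y → ℂ)) (f : σ → (Option Y → ℂ) → ℂ) (W : (Option Y → ℂ) → Set (σ → ℂ)) : Prop :=
  ∀ x ∈ V, ∀ w ∈ W x, ∃ S : Set (σ → ℂ), Irr S ∧ (fun s => f s x) ∈ S ∧ w ∈ S ∧ S ⊆ Fib V f x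

theorem exc_near (hg : 0 < g) {V : Set (Option Y → ℂ)} (hV : IsPreconnected V) (hVo : IsOpen V)
    {f : σ → (Option Y → ℂ) → ℂ} (hf : ∀ s, AnalyticOnNhd ℂ (f s) V) {W : (Option Y → ℂ) → Set (σ → ℂ)}
    (hW : Pieces V f W) (S : Finset (Fin g)) (ξ : ℕ → ℂ) (k : ℕ) (z0 : Fin g → ℂ) (β0 : Y × Fin g → ℂ)
    (hinj : Function.Injective z0) (hS : ∀ i ∈ S, pts z0 β0 i ∈ V) : ∃ 𝒩 ∈ 𝓝 (z0, β0), ∀ ε : ℝ, 0 < ε →
      ∃ (D : ℕ) (C T₀ : ℝ), 0 ≤ C ∧ 2 ≤ T₀ ∧ ∀ T : ℝ, T₀ ≤ T → Cov D ⌊C * T ^ ε⌋₊ (qC '' ExcL f W S ξ k 𝒩 T) := by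
  classical
  obtain ⟨W1, N1, ζ, hch, hz0⟩ := exists_ch z0 hinj
  have : Nonempty (Fin g ⊕ (Y × Fin g)) := ⟨Sum.inl ⟨0, hg⟩⟩
  set x0 : Fin g ⊕ (Y × Fin g) → ℂ := Sum.elim (co z0) β0 with hx0
  have hx0W : (fun i => x0 (Sum.inl i)) ∈ W1 := (hch.inv' z0 hz0).1
  have hpsi0 : psi ζ x0 = pts z0 β0 := by
    have h1 : (ζ fun i => x0 (Sum.inl i)) = z0 := (hch.inv' z0 hz0).2.1
    rw [psi, h1]
    rfl
  have hl : Continuous fun x : Fin g ⊕ (Y × Fin g) → ℂ => fun i => x (Sum.inl i) :=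
    continuous_pi fun i => continuous_apply _
  have hnb : {x : Fin g ⊕ (Y × Fin g) → ℂ | (fun i => x (Sum.inl i)) ∈ W1 ∧ ∀ i ∈ S, psi ζ x i ∈ V} ∈ 𝓝 x0 := by
    have h1 : ∀ᶠ x : Fin g ⊕ (Y × Fin g) → ℂ in 𝓝 x0, (fun i => x (Sum.inl i)) ∈ W1 :=
      hl.continuousAt.eventually_mem (hch.oW.mem_nhds hx0W)
    have h2 : ∀ i ∈ S, ∀ᶠ x : Fin g ⊕ (Y × Fin g) → ℂ in 𝓝 x0, psi ζ x i ∈ V := by
      intro i hi
      refine (psi_an hch hx0W i).continuousAt.eventually_mem (hVo.mem_nhds ?_)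
      rw [hpsi0]
      exact hS i hi
    have h3 : ∀ᶠ x : Fin g ⊕ (Y × Fin g) → ℂ in 𝓝 x0, ∀ i ∈ S, psi ζ x i ∈ V :=
      (Filter.eventually_all_finset S).2 h2
    exact h1.and h3
  obtain ⟨r, hr, hball⟩ := Metric.mem_nhds_iff.1 hnb
  set B : Set (Fin g ⊕ (Y × Fin g) → ℂ) := Metric.ball x0 r with hB
  set Lc : Set (Fin g ⊕ (Y × Fin g) → ℂ) := Metric.closedBall x0 (r / 2) with hLc
  have hLB : Lc ⊆ B := Metric.closedBall_subset_ball (by linarith)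
  have hBc : IsPreconnected B := (convex_ball x0 r).isPreconnected
  have hx0B : x0 ∈ B := Metric.mem_ball_self hr
  let 𝒩 : Set ((Fin g → ℂ) × (Y × Fin g → ℂ)) := {p | p.1 ∈ N1 ∧ Sum.elim (co p.1) p.2 ∈ Lc}
  have hcont : Continuous fun p : (Fin g → ℂ) × (Y × Fin g → ℂ) =>
      (Sum.elim (co p.1) p.2 : Fin g ⊕ (Y × Fin g) → ℂ) := by
    refine continuous_pi fun j => ?_
    rcases j with j | j
    · exact (continuous_apply j).comp (co_cont.comp continuous_fst)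
    · exact (continuous_apply j).comp continuous_snd
  have h𝒩 : 𝒩 ∈ 𝓝 (z0, β0) := by
    have h1 : ∀ᶠ p : (Fin g → ℂ) × (Y × Fin g → ℂ) in 𝓝 (z0, β0), p.1 ∈ N1 :=
      continuous_fst.continuousAt.eventually_mem (hch.oN.mem_nhds hz0)
    have h2 : ∀ᶠ p : (Fin g → ℂ) × (Y × Fin g → ℂ) in 𝓝 (z0, β0), Sum.elim (co p.1) p.2 ∈ Lc :=
      hcont.continuousAt.eventually_mem (Metric.closedBall_mem_nhds _ (by linarith))
    exact h1.and h2
  refine ⟨𝒩, h𝒩, fun ε hε => ?_⟩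
  obtain ⟨D, C, T₀, hC, hT₀, HH⟩ := compN (X := Fin g ⊕ (Y × Fin g)) (σ := {i // i ∈ S} × σ) hBc Metric.isOpen_ball
    ⟨x0, hx0B⟩ (f := GG S f ζ) (GG_an hf hch S (fun x hx => hball hx)) Lc (isCompact_closedBall _ _) hLB k (Fin k) k
    (fun b : Fin k => ξ b) (k : ℝ) ε hε
  refine ⟨D, C, T₀, hC, hT₀, fun T hT => (HH T hT).mono le_rfl le_rfl ?_⟩
  rintro _ ⟨n, ⟨hn, hd, z, hz, hr', hrel⟩, rfl⟩
  have hxeq : qC n = Sum.elim (co z) (betaC n) := qC_eq hr'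
  have hzN : z ∈ N1 := hz.1
  have hxL : qC n ∈ Lc := by rw [hxeq]; exact hz.2
  have hxB : qC n ∈ B := hLB hxL
  have hpsi : psi ζ (qC n) = pts z (betaC n) := by
    have h1 : (ζ fun i => qC n (Sum.inl i)) = z := by
      rw [hxeq]
      exact (hch.inv' z hzN).2.1
    have h2 : (fun q => qC n (Sum.inr q)) = betaC n := by
      rw [hxeq]
      rfl
    rw [psi, h1, h2]
  unfold Rl at hrel
  push Not at hrel
  obtain ⟨F, _, _, hF, io, c, hc, hc0, w, hw, hne⟩ := hrel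
  obtain ⟨E, hE, hEF, hEint⟩ := image_field F io
  have hxV : ∀ e : {i // i ∈ S}, pts z (betaC n) e ∈ V := by
    intro e
    rw [← hpsi]
    exact (hball hxB).2 e e.2
  choose Se hSirr hS1 hSw hSfib using fun e : {i // i ∈ S} => hW _ (hxV e) (w e) (hw e)
  refine ⟨quoB n, ⟨?_, hxL, E, hE, hEF.le.trans hF, fun l b => io (c l b : F), fun l b => ?_, ?_,
    {a | ∀ e, (fun s => a (e, s)) ∈ Se e}, Pool.Agent.N803.CF.irr _ _ Se hSirr, ?_, ?_, fun q => w q.1 q.2, hSw, ?_⟩,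
    rfl⟩
  · rintro (j | q)
    · exact HtLe_int _ _ hr'.1 (hn _) (hn _)
    · exact HtLe_int _ _ hd (hn _) (hn _)
  · have h1 := hEint (c l b) (T ^ k) (hc l b)
    rwa [← Real.rpow_natCast] at h1
  · rw [← hc0]
    refine Finset.sum_congr rfl fun l _ => ?_
    congr 1
    refine Finset.prod_congr rfl fun q _ => ?_
    change GG S f ζ q (qC n) ^ _ = _
    rw [GG, hpsi]
  · intro e
    change (fun s => GG S f ζ (e, s) (qC n)) ∈ Se e
    have h1 : (fun s => GG S f ζ (e, s) (qC n)) = fun s => f s (pts z (betaC n) e) := by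
      funext s
      rw [GG, hpsi]
    rw [h1]
    exact hS1 e
  · intro a ha
    refine fib_incl S hV hf hch Metric.isOpen_ball (fun x hx => hball hx) hxB (fun e s => a (e, s)) fun e => ?_
    rw [hpsi]
    exact hSfib e (ha e)
  · exact hne

end Pool.Agent.V8H73.RN
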