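import Pool.Agent.V8H73.RN.Cnt

/-!
# Points over almost all number fields: all conjugates together
-/

set_option autoImplicit false
set_option linter.unusedSectionVars false

open Polynomial Filter Topology NumberField

namespace Pool.Agent.V8H73.RN

open Pool.Agent.X255.NP Pool.Agent.X255.RH
open Pool.Agent.Y890.SP (exists_omega)
open Pool.Agent.Y124 (Cov)

variable {g : ℕ} {Y σ : Type} [Fintype Y] [DecidableEq Y] [Fintype σ] [DecidableEq σ]

/-- the point `(x, (∑_l β_(y,l) x ^ l)_y)` -/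
def pt1 (x : ℂ) (β : Y × Fin g → ℂ) : Option Y → ℂ := fun o => o.elim x (fun y => ∑ l, β (y, l) * x ^ (l : ℕ))

theorem pts_eq (z : Fin g → ℂ) (β : Y × Fin g → ℂ) (i : Fin g) : pts z β i = pt1 (z i) β := rfl

/-- the roots whose points are in `K` -/
noncomputable def rtK (K : Set (Option Y → ℂ)) (n : Jx g Y → ℤ) : Finset ℂ := by
  classical exact (pol (av n)).roots.toFinset.filter fun x => pt1 x (betaC n) ∈ K

/-- The polynomial has degree `g` and simple roots, the denominator is not zero, and all relations at the conjugates in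
`K` hold on the product of the sets `W`. -/
def GoodB (K : Set (Option Y → ℂ)) (f : σ → (Option Y → ℂ) → ℂ) (W : (Option Y → ℂ) → Set (σ → ℂ)) (ξ : ℕ → ℂ) (k : ℕ)
    (T : ℝ) (n : Jx g Y → ℤ) : Prop :=
  av n (Fin.last g) ≠ 0 ∧ (pol (av n)).Separable ∧ dv n ≠ 0 ∧
    Rl f W ξ k T fun e : {x // x ∈ rtK K n} => pt1 e.1 (betaC n)

/-- the position -/
def InnB (R η : ℝ) (n : Jx g Y → ℤ) : Prop :=
  ∃ z : Fin g → ℂ, IsRoots (av n) z ∧ (∀ i, ‖z i‖ ≤ R) ∧ (∀ i j, i ≠ j → η ≤ ‖z i - z j‖) ∧ dv n ≠ 0 ∧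
    ∀ q, ‖betaC n q‖ ≤ R

/-- the exceptional vectors -/
def ExcG (K : Set (Option Y → ℂ)) (f : σ → (Option Y → ℂ) → ℂ) (W : (Option Y → ℂ) → Set (σ → ℂ)) (R η : ℝ)
    (ξ : ℕ → ℂ) (k : ℕ) (T : ℝ) : Set (Jx g Y → ℤ) :=
  {n | (∀ j, |(n j : ℝ)| ≤ T) ∧ InnB R η n ∧ ¬ Rl f W ξ k T fun e : {x // x ∈ rtK K n} => pt1 e.1 (betaC n)}

theorem Rl.of_equiv {f : σ → (Option Y → ℂ) → ℂ} {W : (Option Y → ℂ) → Set (σ → ℂ)} {ξ : ℕ → ℂ} {k : ℕ} {T : ℝ}
    {E E' : Type} [Fintype E] [DecidableEq E] [Fintype E'] [DecidableEq E'] (e : E ≃ E') {u : E' → Option Y → ℂ}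
    (h : Rl f W ξ k T fun q => u (e q)) : Rl f W ξ k T u := by
  intro F _ _ hF io c hc hrel w hw
  let e' : E × σ ≃ E' × σ := e.prodCongr (Equiv.refl σ)
  have hsum : ∀ v : E' × σ → ℂ,
      ∑ l : E × σ → Fin (k + 1), (∑ b : Fin k, ξ b * io (c (fun q' => l (e'.symm q')) b : F)) *
        ∏ q : E × σ, v (e' q) ^ (l q : ℕ) =
      ∑ l, (∑ b : Fin k, ξ b * io (c l b : F)) * ∏ q, v q ^ (l q : ℕ) := by
    intro v
    refine Fintype.sum_equiv (Equiv.arrowCongr e' (Equiv.refl _)) _ _ fun l => ?_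
    have h1 : (Equiv.arrowCongr e' (Equiv.refl (Fin (k + 1)))) l = fun q' => l (e'.symm q') := rfl
    rw [h1]
    congr 1
    refine Fintype.prod_equiv e' _ _ fun q => ?_
    simp
  have key := h F hF io (fun l => c fun q' => l (e'.symm q')) (fun l b φ => hc _ _ _) (by
    rw [← hrel, ← hsum fun q => f q.2 (u q.1)]
    rfl) (fun q => w (e q)) fun q => hw (e q)
  rw [← hsum fun q => w q.1 q.2, ← key]
  rfl

theorem pts_cont (i : Fin g) : Continuous fun p : (Fin g → ℂ) × (Y × Fin g → ℂ) => pts p.1 p.2 i := by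
  refine continuous_pi fun o => ?_
  rcases o with _ | y
  · exact (continuous_apply i).comp continuous_fst
  · change Continuous fun p : (Fin g → ℂ) × (Y × Fin g → ℂ) => ∑ l, p.2 (y, l) * p.1 i ^ (l : ℕ)
    refine continuous_finsetSum _ fun l _ => ?_
    exact ((continuous_apply _).comp continuous_snd).mul (((continuous_apply i).comp continuous_fst).pow _)

theorem exc_cov (hg : 0 < g) {V : Set (Option Y → ℂ)} (hV : IsPreconnected V) (hVo : IsOpen V)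
    {f : σ → (Option Y → ℂ) → ℂ} (hf : ∀ s, AnalyticOnNhd ℂ (f s) V) {W : (Option Y → ℂ) → Set (σ → ℂ)}
    (hW : Pieces V f W) (K : Set (Option Y → ℂ)) (hK : IsClosed K) (hKV : K ⊆ V) (R η : ℝ) (hη : 0 < η) (ξ : ℕ → ℂ)
    (k : ℕ) (ε : ℝ) (hε : 0 < ε) :
    ∃ (D : ℕ) (C T₀ : ℝ), 0 ≤ C ∧ 2 ≤ T₀ ∧ ∀ T : ℝ, T₀ ≤ T →
      Cov D ⌊C * T ^ ε⌋₊ (qC '' ExcG (g := g) K f W R η ξ k T) := by
  classical
  let 𝒦 : Finset (Fin g) → Set ((Fin g → ℂ) × (Y × Fin g → ℂ)) := fun S =>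
    {p | (∀ i, ‖p.1 i‖ ≤ R) ∧ (∀ i j, i ≠ j → η ≤ ‖p.1 i - p.1 j‖) ∧ (∀ q, ‖p.2 q‖ ≤ R) ∧ ∀ i ∈ S, pts p.1 p.2 i ∈ K}
  have hcomp : ∀ S, IsCompact (𝒦 S) := by
    intro S
    have hc1 : ∀ i : Fin g, Continuous fun p : (Fin g → ℂ) × (Y × Fin g → ℂ) => p.1 i := fun i =>
      (continuous_apply i).comp continuous_fst
    have hc2 : ∀ q : Y × Fin g, Continuous fun p : (Fin g → ℂ) × (Y × Fin g → ℂ) => p.2 q := fun i =>
      (continuous_apply i).comp continuous_snd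
    have h1 : IsClosed (𝒦 S) := by
      have h2 : 𝒦 S = (⋂ i, {p | ‖p.1 i‖ ≤ R}) ∩ ((⋂ (i : Fin g) (j : Fin g) (_ : i ≠ j), {p | η ≤ ‖p.1 i - p.1 j‖}) ∩
          ((⋂ q, {p | ‖p.2 q‖ ≤ R}) ∩ ⋂ (i : Fin g) (_ : i ∈ S),
            (fun p : (Fin g → ℂ) × (Y × Fin g → ℂ) => pts p.1 p.2 i) ⁻¹' K)) := by
        ext p
        simp [𝒦]
      rw [h2]
      refine (isClosed_iInter fun i => isClosed_le (hc1 i).norm continuous_const).inter (IsClosed.inter ?_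
        (IsClosed.inter ?_ ?_))
      · exact isClosed_iInter fun i => isClosed_iInter fun j => isClosed_iInter fun _ =>
          isClosed_le continuous_const (((hc1 i).sub (hc1 j)).norm)
      · exact isClosed_iInter fun q => isClosed_le (hc2 q).norm continuous_const
      · exact isClosed_iInter fun i => isClosed_iInter fun _ => hK.preimage (pts_cont i)
    refine Metric.isCompact_of_isClosed_isBounded h1 ((Metric.isBounded_closedBall (x := (0 : (Fin g → ℂ) ×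
      (Y × Fin g → ℂ))) (r := max R 0)).subset fun p hp => ?_)
    rw [Metric.mem_closedBall, dist_zero_right, Prod.norm_def, max_le_iff, pi_norm_le_iff_of_nonneg (le_max_right _ _),
      pi_norm_le_iff_of_nonneg (le_max_right _ _)]
    exact ⟨fun i => (hp.1 i).trans (le_max_left _ _), fun i => (hp.2.2.1 i).trans (le_max_left _ _)⟩
  have hinj : ∀ S, ∀ p ∈ 𝒦 S, Function.Injective p.1 := by
    intro S z hz i j hij
    by_contra hne
    have h1 := hz.2.1 i j hne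
    rw [hij, sub_self, norm_zero] at h1
    linarith
  have hS : ∀ S, ∃ (D : ℕ) (C T₀ : ℝ), 0 ≤ C ∧ 2 ≤ T₀ ∧ ∀ T : ℝ, T₀ ≤ T →
      Cov D ⌊C * T ^ ε⌋₊ (qC '' ExcL f W S ξ k (𝒦 S) T) := by
    intro S
    choose! Kz hKz1 hKz2 using fun (p : (Fin g → ℂ) × (Y × Fin g → ℂ)) (hp : p ∈ 𝒦 S) =>
      exc_near hg hV hVo hf hW S ξ k p.1 p.2 (hinj S p hp) (fun i hi => hKV (hp.2.2.2 i hi))
    obtain ⟨t, ht1, ht2⟩ := (hcomp S).elim_nhds_subcover Kz fun p hp => hKz1 p hp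
    obtain ⟨D, C, T₀, hC, hT₀, HH⟩ := cov_finset ε t (fun p T => qC '' ExcL f W S ξ k (Kz p) T)
      fun p hp => hKz2 p (ht1 p hp) ε hε
    refine ⟨D, C, T₀, hC, hT₀, fun T hT => (HH T hT).mono le_rfl le_rfl ?_⟩
    rintro _ ⟨n, ⟨hn, hd, z, hz, hr, hrel⟩, rfl⟩
    obtain ⟨p, hp, hzp⟩ := Set.mem_iUnion₂.1 (ht2 hz)
    exact Set.mem_iUnion₂.2 ⟨p, hp, n, ⟨hn, hd, z, hzp, hr, hrel⟩, rfl⟩
  obtain ⟨D, C, T₀, hC, hT₀, HH⟩ := cov_finset ε (Finset.univ : Finset (Finset (Fin g)))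
    (fun S T => qC '' ExcL f W S ξ k (𝒦 S) T) fun S _ => hS S
  refine ⟨D, C, T₀, hC, hT₀, fun T hT => (HH T hT).mono le_rfl le_rfl ?_⟩
  rintro _ ⟨n, ⟨hn, ⟨z, hr, hz1, hz2, hd, hz3⟩, hrel⟩, rfl⟩
  let S : Finset (Fin g) := Finset.univ.filter fun i => pts z (betaC n) i ∈ K
  have hSi : ∀ i, i ∈ S ↔ pts z (betaC n) i ∈ K := fun i => by simp [S]
  have hzK : (z, betaC n) ∈ 𝒦 S := ⟨hz1, hz2, hz3, fun i hi => (hSi i).1 hi⟩
  refine Set.mem_iUnion₂.2 ⟨S, Finset.mem_univ _, n, ⟨hn, hd, z, hzK, hr, fun hR => hrel ?_⟩, rfl⟩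
  have hzi : Function.Injective z := hinj S _ hzK
  have hmem : ∀ x, x ∈ rtK K n ↔ (pol (av n)).eval x = 0 ∧ pt1 x (betaC n) ∈ K := by
    intro x
    unfold rtK
    rw [Finset.mem_filter, Multiset.mem_toFinset, mem_roots (pol_ne hr.1)]
    rfl
  have h1 : Function.Bijective (fun i : {i // i ∈ S} => (⟨z i, (hmem _).2 ⟨hr.root i, (hSi i).1 i.2⟩⟩ :
      {x // x ∈ rtK K n})) := by
    constructor
    · intro i j hij
      exact Subtype.ext (hzi (Subtype.mk.inj hij))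
    · rintro ⟨x, hx⟩
      obtain ⟨hx1, hx2⟩ := (hmem x).1 hx
      obtain ⟨i, rfl⟩ := (IsRoots.root_iff hr).1 hx1
      exact ⟨⟨i, (hSi i).2 hx2⟩, rfl⟩
  exact Rl.of_equiv (Equiv.ofBijective _ h1) hR

theorem InnB.lead {R η : ℝ} {n : Jx g Y → ℤ} (h : InnB R η n) : av n (Fin.last g) ≠ 0 ∧ dv n ≠ 0 := by
  obtain ⟨z, hz, -, -, hd, -⟩ := h
  exact ⟨hz.1, hd⟩

theorem InnB.sep {R η : ℝ} (hη : 0 < η) {n : Jx g Y → ℤ} (h : InnB R η n) : (pol (av n)).Separable := by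
  obtain ⟨z, hz, -, h2, -⟩ := h
  have hinj : Function.Injective z := by
    intro i j hij
    by_contra hne
    have h1 := h2 i j hne
    rw [hij, sub_self, norm_zero] at h1
    linarith
  rw [hz.2]
  have h0 : ((av n (Fin.last g) : ℤ) : ℂ) ≠ 0 := by exact_mod_cast hz.1
  exact Separable.unit_mul (Polynomial.isUnit_C.2 (isUnit_iff_ne_zero.2 h0)) (separable_prod_X_sub_C_iff.2 hinj)

open scoped Classical in
/-- the position of almost all vectors -/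
theorem innB_count (hg : 0 < g) {δ : ℝ} (hδ : 0 < δ) : ∃ (R η : ℝ) (T₀ : ℕ), 0 < η ∧ ∀ T, T₀ ≤ T →
    (((box g Y T).filter fun n => ¬ InnB R η n).card : ℝ) ≤ δ * (box g Y T).card := by
  obtain ⟨R, η, T₀, hη, h⟩ := inn_count hg tame_univ (δ := δ / 2) (by positivity)
  set κ : ℝ := δ / 4 with hκ
  have hκ0 : 0 < κ := by positivity
  refine ⟨max R κ⁻¹, η, max (max T₀ 1) ⌈4 / δ⌉₊, hη, fun T hT => ?_⟩
  simp only [max_le_iff] at hT
  obtain ⟨⟨hT0, hT1⟩, hT2⟩ := hT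
  have hTr : (1 : ℝ) ≤ T := by exact_mod_cast hT1
  have hTp : (0 : ℝ) < T := by linarith
  have h1 := box_av (g := g) (Y := Y) T (fun a => ¬ Inn Set.univ Set.univ R η a) (δ := δ / 2) (by
    convert h T hT0)
  have h2 := box_dv (g := g) (Y := Y) hT1 hκ0.le
  have hsub : ((box g Y T).filter fun n => ¬ InnB (max R κ⁻¹) η n) ⊆
      ((box g Y T).filter fun n => ¬ Inn Set.univ Set.univ R η (av n)) ∪
      ((box g Y T).filter fun n => |(dv n : ℝ)| ≤ κ * T) := by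
    intro n hn
    rw [Finset.mem_filter] at hn
    rw [Finset.mem_union, Finset.mem_filter, Finset.mem_filter]
    by_contra hcon
    rw [not_or, not_and, not_and, not_not, not_le] at hcon
    obtain ⟨z, hz1, hz2, hz3, -⟩ := hcon.1 hn.1
    have hd := hcon.2 hn.1
    have hd0 : dv n ≠ 0 := by
      intro h0
      rw [h0, Int.cast_zero, abs_zero] at hd
      have : 0 < κ * T := by positivity
      linarith
    refine hn.2 ⟨z, hz1, fun i => (hz2 i).trans (le_max_left _ _), hz3, hd0, fun q => ?_⟩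
    refine le_trans ?_ (le_max_right _ _)
    rw [betaC, norm_div, Complex.norm_intCast, Complex.norm_intCast]
    have hdp : 0 < |(dv n : ℝ)| := lt_of_le_of_lt (by positivity) hd
    rw [div_le_iff₀ hdp]
    have hb : |(bv n q : ℝ)| ≤ T := by exact_mod_cast mem_box.1 hn.1 (Sum.inr (some q))
    calc |(bv n q : ℝ)| ≤ T := hb
      _ = κ⁻¹ * (κ * T) := by field_simp
      _ ≤ κ⁻¹ * |(dv n : ℝ)| := mul_le_mul_of_nonneg_left hd.le (by positivity)
  have h3 := (Finset.card_le_card hsub).trans (Finset.card_union_le _ _)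
  have h4 : (((box g Y T).filter fun n => ¬ InnB (max R κ⁻¹) η n).card : ℝ) ≤
      δ / 2 * (box g Y T).card + (κ + 1 / T) * (box g Y T).card := by
    refine le_trans (Nat.cast_le.2 h3) ?_
    rw [Nat.cast_add]
    refine add_le_add (le_of_eq_of_le ?_ h1) (le_of_eq_of_le ?_ h2)
    · congr
    · congr
  refine h4.trans ?_
  rw [← add_mul]
  refine mul_le_mul_of_nonneg_right ?_ (Nat.cast_nonneg _)
  have h5 : 1 / (T : ℝ) ≤ δ / 4 := by
    have h6 : 4 / δ ≤ T := Nat.ceil_le.1 hT2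
    rw [div_le_iff₀ hδ] at h6
    rw [div_le_iff₀ hTp]
    linarith
  rw [hκ]
  linarith

open scoped Classical in
theorem count_k (hg : 0 < g) {V : Set (Option Y → ℂ)} (hV : IsPreconnected V) (hVo : IsOpen V)
    {f : σ → (Option Y → ℂ) → ℂ} (hf : ∀ s, AnalyticOnNhd ℂ (f s) V) {W : (Option Y → ℂ) → Set (σ → ℂ)}
    (hW : Pieces V f W) (K : Set (Option Y → ℂ)) (hK : IsClosed K) (hKV : K ⊆ V) (ξ : ℕ → ℂ) (k : ℕ) (hk : 1 ≤ k) :
    ∃ T₀ : ℕ, ∀ T, T₀ ≤ T → (k : ℝ) * ((box g Y T).filter fun n => ¬ GoodB K f W ξ k T n).card ≤ (box g Y T).card := by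
  have hk' : (1 : ℝ) ≤ k := by exact_mod_cast hk
  obtain ⟨R, η, T₁, hη, hinn⟩ := innB_count (g := g) (Y := Y) hg (δ := 1 / (2 * k)) (by positivity)
  obtain ⟨D, C, T₂, hC, hT₂, HH⟩ := exc_cov (g := g) hg hV hVo hf hW K hK hKV R η hη ξ k (1 / 2) (by norm_num)
  set M : ℕ := Fintype.card (Jx g Y) - 1 with hM
  have hM1 : Fintype.card (Jx g Y) = M + 1 := by
    have h1 : 0 < Fintype.card (Jx g Y) := Fintype.card_pos_iff.2 ⟨Sum.inr none⟩
    omega
  refine ⟨max (max 1 T₁) (max ⌈T₂⌉₊ ⌈(2 * k * (C * (2 * D) * 3 ^ M)) ^ 2⌉₊), fun T hT => ?_⟩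
  simp only [max_le_iff] at hT
  obtain ⟨⟨hT1, hTa⟩, hTb, hTc⟩ := hT
  have hTr : (1 : ℝ) ≤ T := by exact_mod_cast hT1
  have hTp : (0 : ℝ) < T := by linarith
  have hTb' : T₂ ≤ T := Nat.ceil_le.1 hTb
  have hTc' : (2 * k * (C * (2 * D) * 3 ^ M)) ^ 2 ≤ (T : ℝ) := Nat.ceil_le.1 hTc
  obtain ⟨h7, h8⟩ := count_of_cov (ExcG (g := g) K f W R η ξ k T) hTr (fun n hn => hn.1) (fun n hn => hn.2.1.lead)
    (HH T hTb')
  rw [← hM] at h8
  have hsub : ((box g Y T).filter fun n => ¬ GoodB K f W ξ k T n) ⊆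
      ((box g Y T).filter fun n => ¬ InnB R η n) ∪ h7.toFinset := by
    intro n hn
    rw [Finset.mem_filter] at hn
    rw [Finset.mem_union, Finset.mem_filter, Set.Finite.mem_toFinset]
    by_cases hi : InnB R η n
    · right
      refine ⟨fun i => by exact_mod_cast mem_box.1 hn.1 i, hi, fun hno => hn.2 ⟨hi.lead.1, hi.sep hη, hi.lead.2, hno⟩⟩
    · exact Or.inl ⟨hn.1, hi⟩
  have h1 := (Finset.card_le_card hsub).trans (Finset.card_union_le _ _)
  rw [← Set.ncard_eq_toFinset_card _ h7] at h1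
  have h2 : (((box g Y T).filter fun n => ¬ GoodB K f W ξ k T n).card : ℝ) ≤
      ((box g Y T).filter fun n => ¬ InnB R η n).card + (ExcG (g := g) K f W R η ξ k T).ncard := by exact_mod_cast h1
  have h3 := hinn T hTa
  set Bx : ℝ := ((box g Y T).card : ℝ) with hBx
  have hBx0 : 0 ≤ Bx := Nat.cast_nonneg _
  -- the second part
  have h4 : 2 * k * ((ExcG (g := g) K f W R η ξ k T).ncard : ℝ) ≤ Bx := by
    have hsq : ((T : ℝ)) ^ (1 / 2 : ℝ) = √T := by rw [Real.sqrt_eq_rpow]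
    rw [hsq] at h8
    have hs : 2 * k * (C * (2 * D) * 3 ^ M) ≤ √(T : ℝ) := Real.le_sqrt_of_sq_le hTc'
    have hfl : ((⌊C * √(T : ℝ)⌋₊ : ℕ) : ℝ) ≤ C * √T := Nat.floor_le (by positivity)
    have hTT : √(T : ℝ) * √T = T := Real.mul_self_sqrt (by positivity)
    calc 2 * k * ((ExcG (g := g) K f W R η ξ k T).ncard : ℝ)
        ≤ 2 * k * ((⌊C * √(T : ℝ)⌋₊ : ℝ) * (2 * D) * (3 * T) ^ M) := mul_le_mul_of_nonneg_left h8 (by positivity)
      _ ≤ 2 * k * ((C * √T) * (2 * D) * (3 * T) ^ M) := by gcongr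
      _ = (2 * k * (C * (2 * D) * 3 ^ M)) * (√T * T ^ M) := by rw [mul_pow]; ring
      _ ≤ √T * (√T * T ^ M) := mul_le_mul_of_nonneg_right hs (by positivity)
      _ = T ^ (M + 1) := by rw [← mul_assoc, hTT, pow_succ]; ring
      _ ≤ (2 * (T : ℝ) + 1) ^ (M + 1) := pow_le_pow_left₀ (by positivity) (by linarith) _
      _ = Bx := by rw [hBx, box_card, hM1]
  have h5 : (k : ℝ) * (1 / (2 * k) * Bx) = Bx / 2 := by
    field_simp
  nlinarith

open scoped Classical in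
/-- **Almost all points over almost all number fields.** -/
theorem main_all (hg : 0 < g) {V : Set (Option Y → ℂ)} (hV : IsPreconnected V) (hVo : IsOpen V)
    {f : σ → (Option Y → ℂ) → ℂ} (hf : ∀ s, AnalyticOnNhd ℂ (f s) V) {W : (Option Y → ℂ) → Set (σ → ℂ)}
    (hW : Pieces V f W) (K : ℕ → Set (Option Y → ℂ)) (hK : ∀ k, IsClosed (K k) ∧ K k ⊆ V) (ξ : ℕ → ℂ) :
    ∃ ω : ℕ → ℕ, Tendsto ω atTop atTop ∧ Monotone ω ∧ ∀ T,
      ω T * ((box g Y T).filter fun n => ¬ GoodB (K (ω T)) f W ξ (ω T) T n).card ≤ (box g Y T).card := by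
  obtain ⟨ω, T₀, h1, h2, h3⟩ := exists_omega
    (fun k T => (k : ℝ) * ((box g Y ⌊T⌋₊).filter fun n => ¬ GoodB (K k) f W ξ k (⌊T⌋₊ : ℕ) n).card ≤
      (box g Y ⌊T⌋₊).card) (by
      intro k
      obtain ⟨B₀, hB₀⟩ := count_k hg hV hVo hf hW (K (k + 1)) (hK _).1 (hK _).2 ξ (k + 1) (Nat.succ_pos k)
      exact ⟨B₀, fun T hT => hB₀ _ (Nat.le_floor hT)⟩)
  refine ⟨fun B => if T₀ ≤ B then ω B else 0, ?_, ?_, ?_⟩
  · have h4 : (fun B : ℕ => if T₀ ≤ B then ω B else 0) =ᶠ[atTop] fun B : ℕ => ω B := by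
      filter_upwards [eventually_ge_atTop ⌈T₀⌉₊] with B hB
      rw [if_pos (Nat.ceil_le.1 hB)]
    exact Tendsto.congr' h4.symm (h1.comp tendsto_natCast_atTop_atTop)
  · intro B B' hBB
    have hc : (B : ℝ) ≤ B' := by exact_mod_cast hBB
    by_cases h4 : T₀ ≤ (B : ℝ)
    · simp only [if_pos h4, if_pos (h4.trans hc)]
      exact h2 hc
    · simp only [if_neg h4]
      exact Nat.zero_le _
  · intro B
    by_cases h4 : T₀ ≤ (B : ℝ)
    · simp only [if_pos h4]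
      have h5 := (h3 B h4).2
      simp only [Nat.floor_natCast] at h5
      exact_mod_cast h5
    · simp only [if_neg h4, zero_mul]
      exact Nat.zero_le _

end Pool.Agent.V8H73.RN
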