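import Pool.Agent.V8H73.RN.Uni
import Pool.Agent.Results.MP_209724_lc.GenericSolutions

/-!
# Exponential points of translates of a variety
-/

set_option autoImplicit false
set_option linter.unusedSectionVars false

open Filter Topology
open MvPolynomial (C X)

namespace Pool.Agent.V8H73.RN

open Pool.Agent.Results.MP_209724_lc.GenericSolutions (point subst Family)

variable {n : ℕ}

/-- the coordinates of the translation: `a_i`, `b_i` -/
abbrev Tc (n : ℕ) : Type := Fin n ⊕ Fin n

/-- the point `(z - a, b exp z)` of the fixed variety -/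
noncomputable def base (z : Fin n → (Tc n → ℂ) → ℂ) (i : Fin n ⊕ Fin n) (c : Tc n → ℂ) : ℂ :=
  Sum.elim (fun i => z i c - c (Sum.inl i)) (fun i => Complex.exp (z i c) * c (Sum.inr i)) i

/-- the matrix of the derivatives -/
noncomputable def jac (F : Fin n → MvPolynomial (Fin n ⊕ Fin n) ℂ) (v : Fin n ⊕ Fin n → ℂ) : Matrix (Fin n) (Fin n) ℂ :=
  Matrix.of fun i j => MvPolynomial.eval v (MvPolynomial.pderiv (Sum.inl j) (F i)) +
    v (Sum.inr j) * MvPolynomial.eval v (MvPolynomial.pderiv (Sum.inr j) (F i))

/-- the derivative of a polynomial along a curve -/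
theorem poly_deriv {σ : Type} [Fintype σ] (P : MvPolynomial σ ℂ) {f : σ → ℂ → ℂ} {t : ℂ}
    (hf : ∀ i, DifferentiableAt ℂ (f i) t) :
    HasDerivAt (fun t => MvPolynomial.eval (fun i => f i t) P)
      (∑ i, MvPolynomial.eval (fun i => f i t) (MvPolynomial.pderiv i P) * deriv (f i) t) t := by
  classical
  induction P using MvPolynomial.induction_on with
  | C a => simpa using hasDerivAt_const t a
  | add p q hp hq =>
    simp only [map_add, add_mul, Finset.sum_add_distrib]
    exact hp.add hq
  | mul_X p j hp =>
    simp only [map_mul, MvPolynomial.eval_X]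
    have h1 := hp.mul (hf j).hasDerivAt
    refine h1.congr_deriv ?_
    simp only [MvPolynomial.pderiv_mul, map_add, map_mul, MvPolynomial.eval_X, add_mul, Finset.sum_add_distrib]
    congr 1
    · rw [Finset.sum_mul]
      exact Finset.sum_congr rfl fun i _ => by ring
    · rw [Finset.sum_eq_single j]
      · simp [mul_comm]
      · intro i _ hi
        rw [MvPolynomial.pderiv_X_of_ne (Ne.symm hi)]
        simp
      · intro h
        exact absurd (Finset.mem_univ _) h

variable {U : Set (Tc n → ℂ)} {z : Fin n → (Tc n → ℂ) → ℂ}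

/-- the exponential points of the translates move independently -/
theorem trans_free (hU : IsOpen U) (hz : ∀ i, AnalyticOnNhd ℂ (z i) U) (F : Fin n → MvPolynomial (Fin n ⊕ Fin n) ℂ)
    (hF : ∀ c ∈ U, ∀ i, MvPolynomial.eval (fun i => base z i c) (F i) = 0) {c₀ : Tc n → ℂ} (hc₀ : c₀ ∈ U)
    (hdet : (jac F fun i => base z i c₀).det ≠ 0) (m : Fin n → ℤ) (κ : ℂ)
    (hm : ∀ x ∈ U, ∑ i, (m i : ℂ) * z i x = κ) : m = 0 := by
  classical
  funext k
  -- the curve of the translations
  let cu : ℂ → Tc n → ℂ := fun t j => Sum.elim (fun i => c₀ (Sum.inl i) + if i = k then t else 0)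
    (fun i => c₀ (Sum.inr i) * Complex.exp (if i = k then -t else 0)) j
  have hcu0 : cu 0 = c₀ := by
    funext j
    rcases j with i | i <;> simp [cu]
  have hcua : AnalyticAt ℂ cu 0 := by
    rw [analyticAt_pi_iff]
    rintro (i | i)
    · change AnalyticAt ℂ (fun t => c₀ (Sum.inl i) + if i = k then t else 0) 0
      by_cases hi : i = k
      · simp only [hi, if_true]
        exact analyticAt_const.add analyticAt_id
      · simp only [hi, if_false]
        exact analyticAt_const
    · change AnalyticAt ℂ (fun t => c₀ (Sum.inr i) * Complex.exp (if i = k then -t else 0)) 0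
      by_cases hi : i = k
      · simp only [hi, if_true]
        exact analyticAt_const.mul analyticAt_id.neg.cexp
      · simp only [hi, if_false]
        exact analyticAt_const
  have hmem : ∀ᶠ t in 𝓝 (0 : ℂ), cu t ∈ U :=
    hcua.continuousAt.eventually_mem (hU.mem_nhds (by rw [hcu0]; exact hc₀))
  have hza : ∀ i, AnalyticAt ℂ (fun t => z i (cu t)) 0 := fun i =>
    AnalyticAt.comp_of_eq (g := z i) (f := cu) (hz i c₀ hc₀) hcua hcu0
  -- the point moved back
  let h : Fin n → ℂ → ℂ := fun i t => z i (cu t) - if i = k then t else 0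
  have hha : ∀ i, DifferentiableAt ℂ (h i) 0 := by
    intro i
    refine (hza i).differentiableAt.sub ?_
    by_cases hi : i = k
    · simp only [hi, if_true]
      exact differentiableAt_fun_id
    · simp only [hi, if_false]
      exact differentiableAt_const _
  let w : Fin n ⊕ Fin n → ℂ → ℂ := fun j t => Sum.elim (fun i => h i t - c₀ (Sum.inl i))
    (fun i => Complex.exp (h i t) * c₀ (Sum.inr i)) j
  have hwd : ∀ j, DifferentiableAt ℂ (w j) 0 := by
    rintro (i | i)
    · exact (hha i).sub_const _
    · exact (hha i).cexp.mul_const _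
  have hw0 : (fun j => w j 0) = fun j => base z j c₀ := by
    funext j
    rcases j with i | i
    · simp [w, h, base, hcu0]
    · simp [w, h, base, hcu0]
  have hbase : ∀ t j, w j t = base z j (cu t) := by
    intro t j
    rcases j with i | i
    · simp only [w, h, base, Sum.elim_inl, cu]
      by_cases hi : i = k
      · simp only [hi, if_true]
        ring
      · simp only [hi, if_false]
        ring
    · simp only [w, h, base, Sum.elim_inr, cu]
      by_cases hi : i = k
      · simp only [hi, if_true]
        rw [Complex.exp_sub, Complex.exp_neg]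
        have := Complex.exp_ne_zero t
        field_simp
      · simp only [hi, if_false]
        simp
  have hrel : ∀ i, ∑ j, MvPolynomial.eval (fun j => w j 0) (MvPolynomial.pderiv j (F i)) * deriv (w j) 0 = 0 := by
    intro i
    have h1 := poly_deriv (F i) hwd
    have h2 : (fun t => MvPolynomial.eval (fun j => w j t) (F i)) =ᶠ[𝓝 0] fun _ => 0 := by
      filter_upwards [hmem] with t ht
      have h3 := hF _ ht i
      simp only [hbase]
      exact h3
    have h3 := h2.deriv_eq
    rw [h1.deriv, deriv_const] at h3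
    exact h3
  have hjac : (jac F fun j => base z j c₀).mulVec (fun j => deriv (h j) 0) = 0 := by
    funext i
    have h1 := hrel i
    rw [Fintype.sum_sum_type] at h1
    have h2 : ∀ j : Fin n, deriv (w (Sum.inl j)) 0 = deriv (h j) 0 := fun j => deriv_sub_const _
    have h3 : ∀ j : Fin n, deriv (w (Sum.inr j)) 0 = w (Sum.inr j) 0 * deriv (h j) 0 := by
      intro j
      have h4 := ((hha j).hasDerivAt.cexp.mul_const (c₀ (Sum.inr j))).deriv
      refine h4.trans ?_
      simp only [w, Sum.elim_inr]
      ring
    simp only [h2, h3] at h1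
    rw [← Finset.sum_add_distrib] at h1
    rw [Matrix.mulVec, dotProduct, Pi.zero_apply]
    refine Eq.trans (Finset.sum_congr rfl fun j _ => ?_) h1
    rw [hw0]
    have h5 : w (Sum.inr j) 0 = base z (Sum.inr j) c₀ := congrFun hw0 (Sum.inr j)
    rw [h5, jac, Matrix.of_apply]
    ring
  have hh0 : ∀ j, deriv (h j) 0 = 0 := fun j =>
    congrFun (Matrix.eq_zero_of_mulVec_eq_zero hdet hjac) j
  have hzd : ∀ i, deriv (fun t => z i (cu t)) 0 = if i = k then 1 else 0 := by
    intro i
    have h1 : (fun t => z i (cu t)) = fun t => h i t + if i = k then t else 0 := by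
      funext t
      simp [h]
    rw [h1]
    by_cases hi : i = k
    · simp only [hi, if_true]
      rw [deriv_fun_add (hi ▸ hha i) differentiableAt_fun_id, ← hi, hh0, zero_add, deriv_id'']
    · simp only [hi, if_false, add_zero]
      exact hh0 i
  have hs : ∑ i, (m i : ℂ) * deriv (fun t => z i (cu t)) 0 = 0 := by
    have h1 : (fun t => ∑ i, (m i : ℂ) * z i (cu t)) =ᶠ[𝓝 0] fun _ => κ := by
      filter_upwards [hmem] with t ht
      exact hm _ ht
    have h2 := h1.deriv_eq
    rw [deriv_const, deriv_fun_sum fun i _ => ((hza i).differentiableAt.const_mul _)] at h2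
    refine Eq.trans (Finset.sum_congr rfl fun i _ => ?_) h2
    rw [deriv_const_mul _ (hza i).differentiableAt]
  simp only [hzd] at hs
  simpa using hs

/-- the coordinates of the exponential points are algebraic over `n` of them -/
theorem trans_finite {b : Fin n → Fin n ⊕ Fin n} (hb : ∀ c ∈ U, ∀ i, c (Sum.inr i) ≠ 0) (i : Fin n ⊕ Fin n)
    (hQ : ∃ Q : Polynomial (MvPolynomial (Fin n) ℂ),
      (∃ c ∈ U, Q.map (MvPolynomial.eval fun k => base z (b k) c) ≠ 0) ∧
      ∀ c ∈ U, Q.eval₂ (MvPolynomial.eval fun k => base z (b k) c) (base z i c) = 0) :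
    ∃ Q : Polynomial (MvPolynomial (Fin n) (MvPolynomial (Tc n) ℂ)),
      (∃ x ∈ U, Q.map (subst x fun k => point z (b k) x) ≠ 0) ∧
      ∀ x ∈ U, Q.eval₂ (subst x fun k => point z (b k) x) (point z i x) = 0 := by
  obtain ⟨Q, ⟨c₁, hc₁, hne⟩, h0⟩ := hQ
  let θ : MvPolynomial (Fin n) ℂ →+* MvPolynomial (Fin n) (MvPolynomial (Tc n) ℂ) :=
    MvPolynomial.eval₂Hom (C.comp C) fun k => (b k).elim (fun a => X k - C (X (Sum.inl a))) fun a => X k * C (X (Sum.inr a))
  have hθ : ∀ x : Tc n → ℂ, (subst x fun k => point z (b k) x).comp θ =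
      MvPolynomial.eval fun k => base z (b k) x := by
    intro x
    refine MvPolynomial.ringHom_ext (fun r => ?_) fun k => ?_
    · simp [θ, subst]
    · rcases hk : b k with a | a
      · simp [θ, subst, hk, point, base]
      · simp [θ, subst, hk, point, base]
  let L : Polynomial (MvPolynomial (Fin n) (MvPolynomial (Tc n) ℂ)) :=
    i.elim (fun a => Polynomial.X - Polynomial.C (C (X (Sum.inl a)))) fun a => Polynomial.C (C (X (Sum.inr a))) * Polynomial.X
  have hL : ∀ x : Tc n → ℂ, L.eval₂ (subst x fun k => point z (b k) x) (point z i x) = base z i x := by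
    intro x
    rcases i with a | a
    · simp [L, subst, point, base]
    · change Polynomial.eval₂ _ (Complex.exp (z a x)) (Polynomial.C (C (X (Sum.inr a))) * Polynomial.X) =
        Complex.exp (z a x) * x (Sum.inr a)
      rw [Polynomial.eval₂_mul, Polynomial.eval₂_C, Polynomial.eval₂_X, subst, MvPolynomial.coe_eval₂Hom,
        MvPolynomial.eval₂_C, MvPolynomial.eval_X, mul_comm]
  refine ⟨(Q.map θ).comp L, ⟨c₁, hc₁, ?_⟩, fun x hx => ?_⟩
  · rw [Polynomial.map_comp, Polynomial.map_map, hθ]
    intro h1
    rw [Polynomial.comp_eq_zero_iff] at h1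
    rcases h1 with h1 | ⟨-, h2⟩
    · exact hne h1
    · have h3 := congrArg (fun q => Polynomial.coeff q 1) h2
      rcases i with a | a
      · simp [L] at h3
      · simp [L, subst] at h3
        exact hb c₁ hc₁ a h3
  · rw [Polynomial.eval₂_comp, hL, Polynomial.eval₂_map, hθ]
    exact h0 x hx

end Pool.Agent.V8H73.RN
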